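import Mathlib
import Pool.Agent.Y696.Val2
import Pool.Agent.TH936.PU.Chr
import Pool.Agent.TH936.PU.Vp

/-!
# The values at one of the Hecke L-functions of characters of `q`-power order

`q` is a prime number, at least five, and `v` is a valuation of `ℂ` above `q`.
-/

set_option autoImplicit false

open Complex Filter Topology IsDedekindDomain
open scoped PeriodPair

namespace Pool.Agent.N883.Q

open H667R3 Pool.Agent.W192.HK Pool.Agent.TH936.CM Pool.Agent.TH936.PU
open Pool.Agent.W192.CM (nu)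
open Pool.Agent.Y696

variable {L : PeriodPair} {Ω : ℂ} {Γ : Type*} [LinearOrderedCommGroupWithZero Γ]
  {v : Valuation ℂ Γ} {q : ℕ}

/-- the residue field has characteristic `q` -/
lemma char_kk (hq : q.Prime) (hv : v (q : ℂ) < 1) : CharP (kk v) q := by
  have h1 : ((q : ℕ) : kk v) = 0 := by
    have h2 : red v ((q : ℕ) : ℂ) = ((q : ℕ) : kk v) := by
      rw [red_def (v_nat q)]
      have h3 : (⟨((q : ℕ) : ℂ), v_nat q⟩ : v.valuationSubring) = ((q : ℕ) : v.valuationSubring) := by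
        apply Subtype.ext
        simp
      rw [h3, map_natCast]
    rw [← h2]
    exact (red_eq_zero_iff (v_nat q)).2 hv
  exact (CharP.charP_iff_prime_eq_zero hq).2 h1

/-- roots of unity of order a power of `q` are one modulo the valuations above `q` -/
lemma v_root_q (hq : q.Prime) (hv : v (q : ℂ) < 1) {x : ℂ} {k : ℕ} (hx : x ^ (q ^ k) = 1) :
    v (x - 1) < 1 := by
  have := char_kk hq hv
  have : Fact q.Prime := ⟨hq⟩
  have hx1 : v x = 1 := v_one_of_pow (n := q ^ k) (pow_ne_zero k hq.ne_zero) (by rw [hx, map_one])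
  have h1 : v (1 : ℂ) ≤ 1 := by rw [map_one]
  rw [← red_eq_zero_iff (v_sub_le hx1.le h1), red_sub hx1.le h1, red_one]
  have hpow : ∀ n : ℕ, red v (x ^ n) = red v x ^ n := by
    intro n
    induction n with
    | zero => rw [pow_zero, pow_zero, red_one]
    | succ n ih =>
      rw [pow_succ, pow_succ, red_mul (v_pow_le hx1.le n) hx1.le, ih]
  have h2 : (red v x - 1) ^ (q ^ k) = 0 := by
    rw [sub_pow_char_pow, one_pow, ← hpow, hx, red_one, sub_self]
  exact pow_eq_zero_iff (pow_ne_zero k hq.ne_zero) |>.1 h2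

lemma v_two_q (hq : q.Prime) (h5 : 5 ≤ q) (hv : v (q : ℂ) < 1) : v (2 : ℂ) = 1 := by
  have := v_nat_prime hq hv (n := 2) (fun h => by have := Nat.le_of_dvd (by norm_num) h; omega)
  exact_mod_cast this

lemma v_three_q (hq : q.Prime) (h5 : 5 ≤ q) (hv : v (q : ℂ) < 1) : v (3 : ℂ) = 1 := by
  have := v_nat_prime hq hv (n := 3) (fun h => by have := Nat.le_of_dvd (by norm_num) h; omega)
  exact_mod_cast this

/-- good reduction above `q` -/
lemma gd_q (hC : Cur L Ω) (hq : q.Prime) (h5 : 5 ≤ q) (hv : v (q : ℂ) < 1) : Gd v L := by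
  refine ⟨v_two_q hq h5 hv, ?_, ?_, ?_⟩
  · rw [hC.g2, map_zero]
    exact zero_le_one
  · rw [hC.g3, v.map_neg, map_one]
  · rw [hC.g2, hC.g3]
    have : (0 : ℂ) ^ 3 - 27 * (-1) ^ 2 = -(3 ^ 3) := by norm_num
    rw [this, v.map_neg, map_pow, v_three_q hq h5 hv, one_pow]

lemma eisRv (r : eis) : v (r : ℂ) ≤ 1 := v_eis r

lemma v_y0_q (hC : Cur L Ω) (hq : q.Prime) (h5 : 5 ≤ q) (hv : v (q : ℂ) < 1) :
    v (℘'[L] (Ω / 3)) = 1 :=
  v_one_of_pow (n := 2) (by norm_num) (by rw [hC.y0, v.map_neg, v_three_q hq h5 hv])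

/-- the value of the twisted sums -/
theorem hecke_unit_q (hC : Cur L Ω) (hq : q.Prime) (h5 : 5 ≤ q) (hv : v (q : ℂ) < 1) {c : eis}
    (hc : c ≠ 0) (hcq : Cp v c) (hc3 : IsCoprime c 3) {η : MulChar (eis ⧸ (sp c : Ideal eis)) ℂ}
    {k : ℕ} (hη : η ^ (q ^ k) = 1)
    (hP : ∀ P ∈ Sc hc, v ((gP P : ℂ) - ee psi (gP P)) = 1) {l : ℂ}
    (hl : Tendsto (SS (ec η)) (𝓝[>] 0) (𝓝 l)) : v (l / Ω) = 1 := by
  classical
  have hqk : q ^ k ≠ 0 := pow_ne_zero k hq.ne_zero
  have : Finite (eis ⧸ (sp 3 : Ideal eis)) := finite_q three_ne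
  have : Fintype (eis ⧸ (sp 3 : Ideal eis)) := Fintype.ofFinite _
  have : Finite (eis ⧸ (sp c : Ideal eis)) := finite_q hc
  have : Fintype (eis ⧸ (sp c : Ideal eis)) := Fintype.ofFinite _
  have hL := hC.lat
  have hΩ := hL.ne
  obtain ⟨w, hw⟩ := WW_lim hL
  have hwv := hC.w_val hw
  have hG := gd_q hC hq h5 hv
  have vw : v w = 1 := by
    rw [hwv, map_mul, map_mul, map_pow, v_x0 hC, v_y0_q hC hq h5 hv, v_two_q hq h5 hv]
    simp
  have hc0 := coe_ne hc
  have vc : v (c : ℂ) = 1 := hcq.unit eisRv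
  have ve : v (ee psi c) = 1 := v_ee hc3
  have v3 : v 3 = 1 := v_three_q hq h5 hv
  have c3 : ((3 : eis) : ℂ) = 3 := rfl
  have hcp3 : Cp v (3 : eis) := ⟨3, by exact_mod_cast v3, by
    rw [Nat.cast_ofNat]
    exact Ideal.mem_span_singleton_self _⟩
  have hcm : CM (ee psi) := ⟨eo.mul, eo.bd⟩
  have he1 : ee psi 1 = 1 := by
    rw [ee_u isUnit_one]
    rfl
  -- the trivial character
  have l1 := lim_rmv hL hcm gP gP_span (psi_lim hL hw) (Sc hc)
  have e1 : rmv (Sc hc) (ee psi) = ec (1 : MulChar (eis ⧸ (sp c : Ideal eis)) ℂ) := by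
    funext α
    unfold rmv ec
    by_cases h : ∃ P ∈ Sc hc, α ∈ P.asIdeal
    · rw [if_pos h]
      obtain ⟨P, hP, hPα⟩ := h
      have h2 : et (1 : MulChar (eis ⧸ (sp c : Ideal eis)) ℂ) α = 0 := by
        rw [et_zero_iff, cop_iff hc]
        exact fun h3 => h3 P hP hPα
      rw [h2, map_zero, mul_zero]
    · rw [if_neg h]
      have h2 : IsCoprime α c := by
        rw [cop_iff hc]
        intro P hP hα
        exact h ⟨P, hP, hα⟩
      have h3 : et (1 : MulChar (eis ⧸ (sp c : Ideal eis)) ℂ) α = 1 := by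
        unfold et
        exact MulChar.one_apply ((unit_iff α).2 h2)
      rw [h3, map_one, mul_one]
  rw [e1] at l1
  have vprod : v (∏ P ∈ Sc hc, (1 - ee psi (gP P) / (gP P : ℂ))) = 1 := by
    rw [map_prod]
    refine Finset.prod_eq_one fun P hPm => ?_
    have h0 := coe_ne (gP_ne P)
    have h1 : (1 - ee psi (gP P) / (gP P : ℂ)) = ((gP P : ℂ) - ee psi (gP P)) / gP P := by
      field_simp
    have h2 : Cp v (gP P) := by
      obtain ⟨n, hn1, hn2⟩ := hcq
      refine ⟨n, hn1, ?_⟩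
      have h3 := (mem_Sc hc).1 hPm
      rw [gP_span, Ideal.mem_span_singleton] at h3
      rw [Ideal.mem_span_singleton] at hn2 ⊢
      exact h3.trans hn2
    rw [h1, map_div₀, hP P hPm, h2.unit eisRv, div_one]
  by_cases h1 : η = 1
  · subst h1
    have h2 := tendsto_nhds_unique hl l1
    rw [h2, c3]
    have h3 : Ω / 3 * w * (∏ P ∈ Sc hc, (1 - ee psi (gP P) / (gP P : ℂ))) / Ω =
        w / 3 * ∏ P ∈ Sc hc, (1 - ee psi (gP P) / (gP P : ℂ)) := by
      field_simp
    rw [h3, map_mul, map_div₀, vprod, vw, v3, div_one, mul_one]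
  · have hcu : ¬ IsUnit c := by
      intro hu
      apply h1
      have h2 : (sp c : Ideal eis) = ⊤ := Ideal.span_singleton_eq_top.2 hu
      have h3 : Subsingleton (eis ⧸ (sp c : Ideal eis)) := Ideal.Quotient.subsingleton_iff.2 h2
      ext x
      have h4 : (x : eis ⧸ (sp c : Ideal eis)) = 1 := Subsingleton.elim _ _
      rw [h4]
      simp
    have hnt : Nontrivial (eis ⧸ (sp c : Ideal eis)) := by
      rw [Ideal.Quotient.nontrivial_iff]
      intro h
      exact hcu (Ideal.span_singleton_eq_top.1 h)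
    have hzero : ∀ η' : MulChar (eis ⧸ (sp c : Ideal eis)) ℂ, η' 0 = 0 := fun η' =>
      η'.map_nonunit not_isUnit_zero
    have eout : ∀ (η' : MulChar (eis ⧸ (sp c : Ideal eis)) ℂ) (x : eis ⧸ (sp c : Ideal eis)),
        et η' x.out = η' x := by
      intro η' x
      unfold et
      rw [Ideal.Quotient.mk_out]
    -- the formula
    have key : ∀ (η' : MulChar (eis ⧸ (sp c : Ideal eis)) ℂ) (l' : ℂ),
        Tendsto (SS (ec η')) (𝓝[>] 0) (𝓝 l') →
        l' = Ω / (3 * c) * (ee psi c * (starRingEnd ℂ) (et η' 3)) *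
          (∑ x : eis ⧸ (sp c : Ideal eis), (starRingEnd ℂ) (η' x) * hval L Ω x +
          (∑ x : eis ⧸ (sp c : Ideal eis), (starRingEnd ℂ) (η' x)) * w) := by
      intro η' l' hl'
      have h2 : Xg c (fun α => (starRingEnd ℂ) (et η' α)) := by
        refine ⟨fun x y h => ?_, fun x y => ?_, fun x => ?_⟩
        · rw [et_per h]
        · rw [et_mul, map_mul]
        · rw [RCLike.norm_conj]
          exact et_bd hc x
      have h3 := lim_gen hL hc hc3.symm h2 (fun x hx => by
        unfold et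
        rw [Ideal.Quotient.eq_zero_iff_mem.2 hx, hzero, map_zero]) hw
      have h4 := tendsto_nhds_unique hl' h3
      rw [h4, c3]
      simp only [eout]
      rfl
    have k1 := key 1 _ l1
    have k2 := key η _ hl
    have e3 : et (1 : MulChar (eis ⧸ (sp c : Ideal eis)) ℂ) 3 = 1 := by
      unfold et
      exact MulChar.one_apply ((unit_iff 3).2 hc3.symm)
    rw [e3, map_one, mul_one, c3] at k1
    set S1 := ∑ x : eis ⧸ (sp c : Ideal eis),
      (starRingEnd ℂ) ((1 : MulChar (eis ⧸ (sp c : Ideal eis)) ℂ) x) * hval L Ω x +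
      (∑ x : eis ⧸ (sp c : Ideal eis),
        (starRingEnd ℂ) ((1 : MulChar (eis ⧸ (sp c : Ideal eis)) ℂ) x)) * w with hS1
    set S2 := ∑ x : eis ⧸ (sp c : Ideal eis), (starRingEnd ℂ) (η x) * hval L Ω x +
      (∑ x : eis ⧸ (sp c : Ideal eis), (starRingEnd ℂ) (η x)) * w with hS2
    have he0 : ee psi c ≠ 0 := ne_of_v ve
    have k3 : S1 = w * (c / ee psi c * (∏ P ∈ Sc hc, (1 - ee psi (gP P) / (gP P : ℂ)))) := by
      set Q := ∏ P ∈ Sc hc, (1 - ee psi (gP P) / (gP P : ℂ))
      field_simp at k1 ⊢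
      linear_combination -k1
    have vS1 : v S1 = 1 := by
      rw [k3, map_mul, vw, map_mul, map_div₀, vc, ve, vprod]
      simp
    have vh : ∀ x : eis ⧸ (sp c : Ideal eis), x ≠ 0 → v (hval L Ω x + w) ≤ 1 := by
      intro x hx
      refine v_add_le ?_ vw.le
      exact HH_int hL hG three_ne hc hc3.symm hcp3 hcq eo he1 (out_notMem hx)
    have vd : v (S2 - S1) < 1 := by
      have e4 : S2 - S1 = ∑ x : eis ⧸ (sp c : Ideal eis), ((starRingEnd ℂ) (η x) -
          (starRingEnd ℂ) ((1 : MulChar (eis ⧸ (sp c : Ideal eis)) ℂ) x)) * (hval L Ω x + w) := by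
        rw [hS1, hS2, Finset.sum_mul, Finset.sum_mul, ← Finset.sum_add_distrib,
          ← Finset.sum_add_distrib, ← Finset.sum_sub_distrib]
        exact Finset.sum_congr rfl fun x _ => by ring
      rw [e4]
      refine v_sum_lt _ fun x _ => ?_
      by_cases hx : IsUnit x
      · refine v_mul_lt' ?_ (vh x hx.ne_zero)
        rw [MulChar.one_apply hx, map_one]
        refine v_root_q hq hv (k := k) ?_
        rw [← map_pow, ← MulChar.pow_apply' _ hqk, hη, MulChar.one_apply hx, map_one]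
      · rw [MulChar.map_nonunit _ hx, MulChar.map_nonunit _ hx, sub_self, zero_mul, map_zero]
        exact zero_lt_one
    have vS2 : v S2 = 1 := by
      have h2 : S2 = S1 + (S2 - S1) := by ring
      rw [h2, Valuation.map_add_eq_of_lt_left, vS1]
      rw [vS1]
      exact vd
    have vη3 : v ((starRingEnd ℂ) (et η 3)) = 1 := by
      refine v_one_of_pow (n := q ^ k) hqk ?_
      have h2 : IsUnit (Ideal.Quotient.mk (sp c : Ideal eis) 3) := (unit_iff 3).2 hc3.symm
      unfold et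
      rw [← map_pow, ← MulChar.pow_apply' _ hqk, hη, MulChar.one_apply h2, map_one,
        map_one]
    rw [k2]
    have h5 : Ω / (3 * c) * (ee psi c * (starRingEnd ℂ) (et η 3)) * S2 / Ω =
        (ee psi c * (starRingEnd ℂ) (et η 3)) / (3 * c) * S2 := by
      field_simp
    rw [h5, map_mul, map_div₀, map_mul, map_mul, ve, vη3, v3, vc, vS2]
    simp

end Pool.Agent.N883.Q
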