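import Mathlib
import Pool.Agent.N883.Q.Val
import Pool.Agent.R431.B.Main

/-!
# Abelian extensions of the field of cube roots of unity with their Artin maps
-/

set_option autoImplicit false
set_option linter.unusedSectionVars false

namespace Pool.Agent.N883.Q

open NumberField IsDedekindDomain IsLocalRing Filter Topology Complex
open Pool.Agent.W192.HK Pool.Agent.TH936.CM Pool.Agent.TH936.PU
open Pool.Agent.W192.CM (nu)
open Pool.Agent.Y696
open scoped PeriodPair

/-- an abelian extension of `ℚ(ω)` with its Artin map -/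
structure DatQ {K : Type} [Field K] [NumberField K] (ι : eis →+* 𝓞 K) (G : Type) [CommGroup G]
    [MulSemiringAction G (𝓞 K)] (c : eis) (art : (eis ⧸ (sp c : Ideal eis))ˣ →* G) : Prop where
  c_ne : c ≠ 0
  cop3 : IsCoprime c 3
  inv : ∀ b : 𝓞 K, (∀ g : G, g • b = b) → ∃ a, ι a = b
  fix : ∀ (g : G) (a : eis), g • ι a = ι a
  unr : ∀ v : HeightOneSpectrum (𝓞 K), ι c ∉ v.asIdeal →
    ∀ g : G, (∀ x : 𝓞 K, g • x - x ∈ v.asIdeal) → g = 1
  frob : ∀ π : eis, Prime π → ∀ u : (eis ⧸ (sp c : Ideal eis))ˣ,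
    (u : eis ⧸ (sp c : Ideal eis)) = Ideal.Quotient.mk _ π →
    ∀ v : HeightOneSpectrum (𝓞 K), ι π ∈ v.asIdeal →
    ∀ x : 𝓞 K, art u • x - x ^ Nat.card (eis ⧸ (sp π : Ideal eis)) ∈ v.asIdeal

section

variable {K : Type} [Field K] [NumberField K] {ι : eis →+* 𝓞 K} {G : Type} [CommGroup G]
  [Finite G] [MulSemiringAction G (𝓞 K)] {c : eis} {art : (eis ⧸ (sp c : Ideal eis))ˣ →* G}

lemma prime_gP (P : HeightOneSpectrum eis) : Prime (gP P) := by
  rw [← Ideal.span_singleton_prime (gP_ne P)]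
  have := P.isPrime
  rwa [gP_span] at this

theorem exists_overQ (D : DatQ ι G c art) (P : HeightOneSpectrum eis) :
    ∃ v : HeightOneSpectrum (𝓞 K), bel ι v = P := by
  have hprime : Prime (gP P) := prime_gP P
  have hnu : ¬ IsUnit (ι (gP P)) := by
    intro hun
    obtain ⟨w, hw⟩ := hun.exists_right_inv
    obtain ⟨b, hb⟩ := D.inv w (by
      intro g
      have h4 : ι (gP P) * (g • w) = 1 := by
        rw [← D.fix g (gP P), ← smul_mul', hw, smul_one]
      exact hun.mul_left_cancel (h4.trans hw.symm))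
    apply hprime.not_isUnit
    refine IsUnit.of_mul_eq_one b ?_
    apply ι_inj ι
    rw [map_mul, map_one, hb]
    exact hw
  obtain ⟨M, hM, hzM⟩ := exists_max_ideal_of_mem_nonunits (mem_nonunits_iff.2 hnu)
  refine ⟨⟨M, hM.isPrime, ?_⟩, bel_eq_of ι hzM⟩
  intro hbot
  rw [hbot, Ideal.mem_bot] at hzM
  exact gP_ne P (ι_inj ι (by rw [hzM, map_zero]))

/-- a prime of `ℤ[ω]` above three -/
lemma exists_three : ∃ P : HeightOneSpectrum eis, (3 : eis) ∈ P.asIdeal := by
  have h3 : ¬ IsUnit (3 : eis) := by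
    intro h
    rw [isUnit_iff'] at h
    have : Complex.normSq ((3 : eis) : ℂ) = 9 := normSq_three
    rw [this] at h
    norm_num at h
  obtain ⟨M, hM, h⟩ := exists_max_ideal_of_mem_nonunits (mem_nonunits_iff.2 h3)
  refine ⟨⟨M, hM.isPrime, ?_⟩, h⟩
  rintro rfl
  rw [Ideal.mem_bot] at h
  exact three_ne h

/-- the Artin map is trivial on the units -/
lemma art_unitQ (D : DatQ ι G c art) {w : eis} (hw : IsUnit w)
    {u : (eis ⧸ (sp c : Ideal eis))ˣ}
    (hu : (u : eis ⧸ (sp c : Ideal eis)) = Ideal.Quotient.mk _ w) : art u = 1 := by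
  obtain ⟨P, hP3⟩ := exists_three
  obtain ⟨v, hv⟩ := exists_overQ D P
  set t := gP P with ht
  have htp : Prime t := prime_gP P
  have ht0 : t ≠ 0 := gP_ne P
  have hsp : P.asIdeal = sp t := gP_span P
  have htv : ι t ∈ v.asIdeal := by
    rw [← mem_bel, hv]
    exact Pool.Agent.R431.B.mem_gP P
  have hcP : c ∉ P.asIdeal := by
    intro h
    obtain ⟨a, b, hab⟩ := D.cop3
    apply P.isPrime.ne_top
    rw [Ideal.eq_top_iff_one, ← hab]
    exact P.asIdeal.add_mem (P.asIdeal.mul_mem_left _ h) (P.asIdeal.mul_mem_left _ hP3)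
  have hcv : ι c ∉ v.asIdeal := by
    rw [← mem_bel, hv]
    exact hcP
  obtain ⟨u2, hu2⟩ := (unit_iff (c := c) t).2 (Pool.Agent.R431.B.cop_gen hsp hcP)
  have hwt : Prime (w * t) := by
    rw [← Ideal.span_singleton_prime (mul_ne_zero hw.ne_zero ht0),
      Ideal.span_singleton_mul_left_unit hw]
    exact (Ideal.span_singleton_prime ht0).2 htp
  have h1 := D.frob t htp u2 hu2 v htv
  have h2 := D.frob (w * t) hwt (u * u2) (by
    rw [Units.val_mul, hu, hu2, map_mul]) v (by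
    rw [map_mul]
    exact v.asIdeal.mul_mem_left _ htv)
  have h3 : (sp (w * t) : Ideal eis) = sp t := Ideal.span_singleton_mul_left_unit hw t
  rw [h3] at h2
  apply D.unr v hcv
  intro x
  have h4 := v.asIdeal.sub_mem (h2 ((art u2)⁻¹ • x)) (h1 ((art u2)⁻¹ • x))
  rw [sub_sub_sub_cancel_right, map_mul, mul_smul, smul_inv_smul] at h4
  exact h4

lemma et_eta_unitQ (D : DatQ ι G c art) (χ : MulChar G ℂ) (w : eis) (hw : IsUnit w) :
    et (eta art χ) w = 1 := by
  have h1 : IsCoprime w c := by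
    obtain ⟨t, ht⟩ := hw.exists_left_inv
    exact ⟨t, 0, by rw [ht, zero_mul, add_zero]⟩
  obtain ⟨u, hu⟩ := (unit_iff w).2 h1
  unfold et
  rw [← hu, eta_unit, art_unitQ D hw hu, map_one]

lemma eta_powQ {q n : ℕ} (hG : Nat.card G = q ^ n) (χ : MulChar G ℂ) :
    eta art χ ^ (q ^ n) = 1 := by
  ext u
  rw [MulChar.pow_apply_coe, eta_unit, ← map_pow, ← hG, pow_card_eq_one', map_one,
    MulChar.one_apply_coe]

lemma three_notQ (D : DatQ ι G c art) {P : HeightOneSpectrum eis} (hP : c ∈ P.asIdeal) :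
    (3 : eis) ∉ P.asIdeal := by
  intro h
  obtain ⟨a, b, hab⟩ := D.cop3
  apply P.isPrime.ne_top
  rw [Ideal.eq_top_iff_one, ← hab]
  exact P.asIdeal.add_mem (P.asIdeal.mul_mem_left _ hP) (P.asIdeal.mul_mem_left _ h)

end

section val

variable {Γ : Type*} [LinearOrderedCommGroupWithZero Γ] {v : Valuation ℂ Γ}

/-- the value of the Hecke character at a prime -/
lemma v_psi_gP {P : HeightOneSpectrum eis} (h3 : (3 : eis) ∉ P.asIdeal) :
    v ((gP P : ℂ) - ee psi (gP P)) = v (psi P.asIdeal - 1) := by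
  have hcop : IsCoprime (gP P) 3 := Pool.Agent.R431.B.cop_gen (gP_span P) h3
  have hI : IsCoprime P.asIdeal (sp 3) := by
    rw [gP_span, Ideal.isCoprime_span_singleton_iff]
    exact hcop
  obtain ⟨π, hπ1, hπ2⟩ := exists_prim hI
  have hpsi : psi P.asIdeal = π := by rw [hπ1]; exact psi_prim hπ2
  have has : sp π = sp (gP P) := by rw [← hπ1, ← gP_span]
  obtain ⟨w, hw⟩ := Ideal.span_singleton_eq_span_singleton.1 has
  have h5 : ee psi π = 1 := by
    rw [eo.per π 1 hπ2, ee_u isUnit_one]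
    rfl
  rw [← hw, eo.mul, h5, ee_u w.isUnit, one_mul, hpsi]
  have h6 : (((π * (w : eis) : eis)) : ℂ) - ((w : eis) : ℂ) = ((w : eis) : ℂ) * ((π : ℂ) - 1) := by
    push_cast
    ring
  rw [h6, map_mul, v_unit w.isUnit, one_mul]

lemma vc_q {q : ℕ} (hv : v (q : ℂ) < 1) : vc v (q : ℂ) < 1 := by
  rw [vc_apply, map_natCast]
  exact hv

/-- the values of the Hecke L-functions are units -/
lemma v_FQ {K : Type} [Field K] [NumberField K] {ι : eis →+* 𝓞 K} {G : Type} [CommGroup G]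
    [Finite G] [MulSemiringAction G (𝓞 K)] {c : eis} {art : (eis ⧸ (sp c : Ideal eis))ˣ →* G}
    (D : DatQ ι G c art) {q n : ℕ} (hq : q.Prime) (h5 : 5 ≤ q) (hG : Nat.card G = q ^ n)
    (hcq : Cp v c) (hP : ∀ P : HeightOneSpectrum eis, c ∈ P.asIdeal → v (psi P.asIdeal - 1) = 1)
    (χ : MulChar G ℂ) {L : PeriodPair} {Ω : ℂ} (hC : Cur L Ω) (hv : v (q : ℂ) < 1) {a : ℂ}
    (ha : Tendsto (SS (ec (eta art χ))) (𝓝[>] 0) (𝓝 ((nu eis : ℂ) * (starRingEnd ℂ) a))) :
    v ((starRingEnd ℂ) a / Ω) = 1 := by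
  have h1 := hecke_unit_q hC hq h5 hv D.c_ne hcq D.cop3 (eta_powQ hG χ) (fun P hPm => by
    have hP' := (mem_Sc D.c_ne).1 hPm
    rw [v_psi_gP (three_notQ D hP')]
    exact hP P hP') ha
  rw [nu_six, mul_div_assoc, map_mul] at h1
  have h2 : v ((6 : ℕ) : ℂ) = 1 := by
    have : ((6 : ℕ) : ℂ) = 2 * 3 := by norm_num
    rw [this, map_mul, v_two_q hq h5 hv, v_three_q hq h5 hv, one_mul]
  rwa [h2, one_mul] at h1

lemma exists_over_q {q : ℕ} (hq : q.Prime) :
    ∃ V : ValuationSubring ℂ, V.valuation (q : ℂ) < 1 := by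
  have h1 : (q : ℂ)⁻¹ ∉ (integralClosure ℤ ℂ).toSubring := by
    intro h
    have h2 : IsIntegral ℤ ((q : ℂ)⁻¹) := h
    have h5 : IsIntegral ℤ ((q : ℚ)⁻¹) := by
      rw [← isIntegral_algebraMap_iff (algebraMap ℚ ℂ).injective]
      simpa using h2
    obtain ⟨y, hy⟩ := IsIntegrallyClosed.isIntegral_iff.mp h5
    have h6 : (y : ℚ) * q = 1 := by
      have : (y : ℚ) = (q : ℚ)⁻¹ := hy
      rw [this, inv_mul_cancel₀ (by exact_mod_cast hq.ne_zero)]
    have h7 : y * q = 1 := by exact_mod_cast h6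
    have h8 : (q : ℤ) ∣ 1 := ⟨y, by rw [mul_comm]; exact h7.symm⟩
    have h9 : q ∣ 1 := by exact_mod_cast h8
    exact hq.one_lt.ne' (Nat.dvd_one.1 h9)
  obtain ⟨V, -, hV⟩ := Subring.exists_le_valuationSubring_of_isIntegrallyClosedIn h1
  refine ⟨V, ?_⟩
  rw [← ValuationSubring.valuation_le_one_iff, not_le, map_inv₀] at hV
  exact (one_lt_inv₀ (zero_lt_iff.mpr ((Valuation.ne_zero_iff _).mpr
    (by exact_mod_cast hq.ne_zero)))).mp hV

end val

end Pool.Agent.N883.Q
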