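import Pool.Agent.N883.Q.Perd

/-!
# Period matrices
-/

set_option autoImplicit false
set_option linter.unusedSectionVars false

namespace Pool.Agent.N883.Q

open NumberField IsDedekindDomain

open Pool.Agent.Y696 Pool.Agent.R431.B

section span

variable {k : Type*} [Field k] {g : ℕ}

/-- a basis inside of a spanning set -/
lemma exists_basis_of_span (s : Set (Fin g → k)) (hs : Submodule.span k s = ⊤) :
    ∃ f : Fin g → (Fin g → k), (∀ i, f i ∈ s) ∧ (Matrix.of f).det ≠ 0 := by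
  obtain ⟨f, h1, -, h3⟩ := Submodule.exists_fun_fin_finrank_span_eq k s
  have h4 : Module.finrank k (Submodule.span k s) = g := by
    rw [hs, finrank_top, Module.finrank_fintype_fun_eq_card, Fintype.card_fin]
  refine ⟨f ∘ Fin.cast h4.symm, fun i => h1 _, ?_⟩
  have h5 := h3.comp (Fin.cast h4.symm) (Fin.cast_injective h4.symm)
  have h6 : IsUnit (Matrix.of (f ∘ Fin.cast h4.symm)) :=
    Matrix.linearIndependent_rows_iff_isUnit.1 h5
  rw [Matrix.isUnit_iff_isUnit_det] at h6
  exact h6.ne_zero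

/-- the involutions are diagonalizable -/
lemma exists_eigen {P : Matrix (Fin g) (Fin g) ℚ} (hP : P * P = 1) :
    ∃ (ε : Fin g → ℤˣ) (C : Matrix (Fin g) (Fin g) ℚ), C.det ≠ 0 ∧
      ∀ i, P.mulVec (C i) = ((ε i : ℤ) : ℚ) • C i := by
  let s : Set (Fin g → ℚ) := {v | ∃ u : ℤˣ, P.mulVec v = ((u : ℤ) : ℚ) • v}
  have hs : Submodule.span ℚ s = ⊤ := by
    rw [eq_top_iff]
    intro v _
    have h1 : P.mulVec (P.mulVec v) = v := by
      rw [Matrix.mulVec_mulVec, hP, Matrix.one_mulVec]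
    have h2 : v + P.mulVec v ∈ s := ⟨1, by
      rw [Matrix.mulVec_add, h1]
      simp [add_comm]⟩
    have h3 : v - P.mulVec v ∈ s := ⟨-1, by
      rw [Matrix.mulVec_sub, h1]
      simp⟩
    have h4 : v = (1 / 2 : ℚ) • ((v + P.mulVec v) + (v - P.mulVec v)) := by
      ext i
      simp only [Pi.smul_apply, Pi.add_apply, Pi.sub_apply, smul_eq_mul]
      ring
    rw [h4]
    exact Submodule.smul_mem _ _ (Submodule.add_mem _ (Submodule.subset_span h2)
      (Submodule.subset_span h3))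
  obtain ⟨f, h1, h2⟩ := exists_basis_of_span s hs
  choose ε hε using h1
  exact ⟨ε, Matrix.of f, h2, hε⟩

end span

section inv

variable {K : Type} [Field K] [NumberField K] {g : ℕ} (ρ : (K ≃ₐ[ℚ] K) →* GL (Fin g) ℤ)

/-- the matrices over `K` -/
def kM (ρ : (K ≃ₐ[ℚ] K) →* GL (Fin g) ℤ) (σ : K ≃ₐ[ℚ] K) : Matrix (Fin g) (Fin g) K :=
  (ρ σ : Matrix (Fin g) (Fin g) ℤ).map (Int.cast : ℤ → K)

lemma kM_mul (σ τ : K ≃ₐ[ℚ] K) : kM ρ (σ * τ) = kM ρ σ * kM ρ τ := by
  unfold kM
  rw [map_mul, Units.val_mul]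
  exact Matrix.map_mul (f := Int.castRingHom K)

lemma kM_one : kM ρ 1 = 1 := by
  unfold kM
  rw [map_one, Units.val_one]
  exact Matrix.map_one (Int.castRingHom K) (map_zero _) (map_one _)

lemma kM_det (σ : K ≃ₐ[ℚ] K) :
    (kM ρ σ).det = ((ρ σ : Matrix (Fin g) (Fin g) ℤ).det : K) := by
  unfold kM
  exact (RingHom.map_det (Int.castRingHom K) _).symm

/-- a rational basis of the forms -/
theorem exists_inv : ∃ B : Matrix (Fin g) (Fin g) K, B.det ≠ 0 ∧
    ∀ σ : K ≃ₐ[ℚ] K, (kM ρ σ).transpose * B = B.map σ := by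
  classical
  let s : Set (Fin g → K) := {w | ∀ σ : K ≃ₐ[ℚ] K, (kM ρ σ).transpose.mulVec w = fun i => σ (w i)}
  let W : K → Fin g → Fin g → K := fun x j i => ∑ σ : K ≃ₐ[ℚ] K, σ x * kM ρ σ⁻¹ j i
  have hW : ∀ x j, W x j ∈ s := by
    intro x j τ
    ext i
    have e1 : (kM ρ τ).transpose.mulVec (W x j) i =
        ∑ σ : K ≃ₐ[ℚ] K, σ x * kM ρ (σ⁻¹ * τ) j i := by
      simp only [Matrix.mulVec, dotProduct, Matrix.transpose_apply, W, kM_mul,
        Matrix.mul_apply, Finset.mul_sum]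
      rw [Finset.sum_comm]
      refine Finset.sum_congr rfl fun σ _ => Finset.sum_congr rfl fun k _ => ?_
      ring
    have e2 : τ (W x j i) = ∑ σ : K ≃ₐ[ℚ] K, (τ * σ) x * kM ρ σ⁻¹ j i := by
      simp only [W, map_sum, map_mul]
      refine Finset.sum_congr rfl fun σ _ => ?_
      congr 1
      simp [kM]
    rw [e1, e2]
    refine (Fintype.sum_equiv (Equiv.mulLeft τ) _ _ fun σ => ?_).symm
    rw [Equiv.coe_mulLeft]
    congr 2
    group
  have hs : Submodule.span K s = ⊤ := by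
    by_contra hne
    obtain ⟨f, hf0, hf⟩ := Submodule.exists_le_ker_of_lt_top _ (lt_top_iff_ne_top.2 hne)
    apply hf0
    apply LinearMap.pi_ext'
    intro j
    apply LinearMap.ext_ring
    have hj : ∀ x : K, ∑ σ : K ≃ₐ[ℚ] K, f (fun i => kM ρ σ⁻¹ j i) * σ x = 0 := by
      intro x
      have h1 : f (W x j) = 0 := hf (Submodule.subset_span (hW x j))
      have h2 : W x j = ∑ σ : K ≃ₐ[ℚ] K, σ x • (fun i => kM ρ σ⁻¹ j i) := by
        ext i
        simp [W, Finset.sum_apply]
      rw [h2, map_sum] at h1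
      rw [← h1]
      refine Finset.sum_congr rfl fun σ _ => ?_
      rw [map_smul, smul_eq_mul, mul_comm]
    have hli := (linearIndependent_monoidHom K K).comp
      (fun σ : K ≃ₐ[ℚ] K => (σ : K →* K)) (fun σ τ h => by
        apply AlgEquiv.ext
        intro x
        exact congrArg (fun t : K →* K => t x) h)
    have h3 := Fintype.linearIndependent_iff.1 hli (fun σ => f (fun i => kM ρ σ⁻¹ j i)) (by
      ext x
      rw [Finset.sum_apply]
      exact hj x) 1
    rw [inv_one, kM_one] at h3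
    simp only [LinearMap.comp_apply, LinearMap.single_apply, LinearMap.zero_comp,
      LinearMap.zero_apply]
    rw [← h3]
    congr 1
    ext i
    simp [Matrix.one_apply, Pi.single_apply, eq_comm]
  obtain ⟨f, h1, h2⟩ := exists_basis_of_span s hs
  refine ⟨(Matrix.of f).transpose, by rwa [Matrix.det_transpose], fun σ => ?_⟩
  ext i k
  have h3 := congrFun (h1 k σ) i
  rw [Matrix.map_apply, Matrix.transpose_apply, Matrix.of_apply, ← h3]
  simp [Matrix.mul_apply, Matrix.mulVec, dotProduct]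

end inv

end Pool.Agent.N883.Q
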