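import Pool.Agent.N883.Q.Det

/-!
# The determinants of the period matrices
-/

set_option autoImplicit false
set_option linter.unusedSectionVars false

namespace Pool.Agent.N883.Q

open NumberField IsDedekindDomain

open Pool.Agent.Y696 Pool.Agent.R431.B

section

variable {F K : Type} [Field F] [NumberField F] [IsCyclotomicExtension {3} ℚ F] [Field K]
  [NumberField K] [Algebra F K] [IsGalois ℚ K] {g : ℕ} (ρ : (K ≃ₐ[ℚ] K) →* GL (Fin g) ℤ)

omit [IsGalois ℚ K] [NumberField F] [IsCyclotomicExtension {3} ℚ F] [Algebra F K] in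
lemma sq_neg {x y : K} (h : x ^ 2 = y ^ 2) : x = y ∨ x = -y := sq_eq_sq_iff_eq_or_eq_neg.1 h

/-- the determinant of a rational basis of the forms -/
theorem det_rat {N : ℕ} (hN : Odd N) (hcard : Nat.card (K ≃ₐ[F] K) = N)
    {B : Matrix (Fin g) (Fin g) K} (hB : B.det ≠ 0)
    (hB' : ∀ σ : K ≃ₐ[ℚ] K, (kM ρ σ).transpose * B = B.map σ) (φ : K →+* ℂ) (c : K ≃ₐ[ℚ] K)
    (hc : ∀ x : K, φ (c x) = (starRingEnd ℂ) (φ x)) {b : ℕ}
    (hb : (ρ c : Matrix (Fin g) (Fin g) ℤ).det = (-1) ^ b) :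
    ∃ t : ℚ, t ≠ 0 ∧ φ B.det * (2 * om + 1) ^ b = t := by
  obtain ⟨ζ, hζ⟩ := IsCyclotomicExtension.exists_isPrimitiveRoot ℚ F
    (Set.mem_singleton 3) (by norm_num)
  have hζ2 : ζ ^ 2 + ζ + 1 = 0 := by
    have h1 : (ζ - 1) * (ζ ^ 2 + ζ + 1) = 0 := by
      have := hζ.pow_eq_one
      linear_combination this
    rcases mul_eq_zero.1 h1 with h | h
    · exact absurd (sub_eq_zero.1 h) (hζ.ne_one (by norm_num))
    · exact h
  set z : K := algebraMap F K ζ with hz
  have hz2 : z ^ 2 + z + 1 = 0 := by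
    rw [hz, ← map_pow, ← map_add, ← map_one (algebraMap F K), ← map_add, hζ2, map_zero]
  set θ : K := 2 * z + 1 with hθ
  have hθ2 : θ ^ 2 = -3 := by linear_combination 4 * hz2
  have hθ0 : θ ≠ 0 := by
    intro h
    rw [h] at hθ2
    norm_num at hθ2
  have hφ2 : φ θ ^ 2 = -3 := by
    rw [← map_pow, hθ2, map_neg, map_ofNat]
  have hφ : φ θ = 2 * om + 1 ∨ φ θ = -(2 * om + 1) :=
    sq_eq_sq_iff_eq_or_eq_neg.1 (hφ2.trans th_sq.symm)
  have hconj : (starRingEnd ℂ) (φ θ) = -φ θ := by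
    have h1 : (φ θ).re = 0 := by
      rcases hφ with h | h
      · rw [h, th_re]
      · rw [h, Complex.neg_re, th_re, neg_zero]
    apply Complex.ext
    · rw [Complex.conj_re, Complex.neg_re, h1, neg_zero]
    · rw [Complex.conj_im, Complex.neg_im]
  have hcθ : c θ = -θ := by
    apply φ.injective
    rw [hc, hconj, map_neg]
  have hF : ∀ σ : K ≃ₐ[ℚ] K, σ θ = θ → (ρ σ : Matrix (Fin g) (Fin g) ℤ).det = 1 := by
    intro σ hσ
    have h2 : σ z = z := by
      have e : z = (θ - 1) / 2 := by rw [hθ]; ring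
      rw [e, map_div₀, map_sub, hσ, map_one, map_ofNat]
    obtain ⟨τ, hτ⟩ := range_of_fix hζ (σ := σ) h2
    rw [← hτ]
    exact det_odd (ρ.comp (inc F K)) τ hN (by rw [← hcard, pow_card_eq_one'])
  have hdet : ∀ σ : K ≃ₐ[ℚ] K, σ B.det = ((ρ σ : Matrix (Fin g) (Fin g) ℤ).det : K) * B.det := by
    intro σ
    have h1 := congrArg Matrix.det (hB' σ)
    rw [Matrix.det_mul, Matrix.det_transpose, kM_det] at h1
    rw [h1]
    exact RingHom.map_det (σ : K →+* K) B
  have hfix : ∀ σ : K ≃ₐ[ℚ] K, σ (B.det * θ ^ b) = B.det * θ ^ b := by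
    intro σ
    have h1 : (σ θ) ^ 2 = θ ^ 2 := by
      rw [← map_pow, hθ2, map_neg, map_ofNat]
    rcases sq_eq_sq_iff_eq_or_eq_neg.1 h1 with h | h
    · rw [map_mul, map_pow, h, hdet, hF σ h]
      simp
    · have h2 : (σ * c) θ = θ := by
        rw [AlgEquiv.mul_apply, hcθ, map_neg, h, neg_neg]
      have h3 := hF _ h2
      rw [map_mul, Units.val_mul, Matrix.det_mul, hb] at h3
      have h4 : ((ρ σ : Matrix (Fin g) (Fin g) ℤ).det : K) * (-1) ^ b = 1 := by
        have := congrArg (Int.castRingHom K) h3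
        rw [map_mul, map_pow, map_neg, map_one] at this
        exact this
      rw [map_mul, map_pow, h, hdet, neg_pow]
      linear_combination B.det * θ ^ b * h4
  obtain ⟨t, ht⟩ := (IsGalois.mem_range_algebraMap_iff_fixed (F := ℚ) (E := K) _).2 hfix
  have h5 : φ (B.det * θ ^ b) = t := by
    rw [← ht]
    simp
  have ht0 : t ≠ 0 := by
    rintro rfl
    rw [map_zero] at ht
    exact mul_ne_zero hB (pow_ne_zero b hθ0) ht.symm
  rw [map_mul, map_pow] at h5
  rcases hφ with h | h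
  · exact ⟨t, ht0, by rw [← h5, h]⟩
  · refine ⟨(-1) ^ b * t, mul_ne_zero (pow_ne_zero b (by norm_num)) ht0, ?_⟩
    push_cast
    rw [← h5, h, neg_pow (2 * om + 1)]
    have : ((-1 : ℂ) ^ b) * (-1) ^ b = 1 := by
      rw [← mul_pow]
      norm_num
    linear_combination -(φ B.det * (2 * om + 1) ^ b) * this

/-- the period of the curve on a cycle of the given sign -/
noncomputable def per (Rp Cp : ℝ) (u : ℤˣ) : ℂ :=
  if u = 1 then (Rp : ℂ) else Complex.I * ((Cp / Rp : ℝ) : ℂ)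

lemma prod_sign {ε : Fin g → ℤˣ} :
    ∏ i, ((ε i : ℤ) : ℤ) = (-1) ^ (Finset.univ.filter fun i => ε i ≠ 1).card := by
  rw [← Finset.prod_const, Finset.prod_filter]
  refine Finset.prod_congr rfl fun i _ => ?_
  rcases Int.units_eq_one_or (ε i) with h | h
  · rw [h]
    simp
  · rw [h]
    simp

/-- the determinants -/
theorem det_period {N : ℕ} (hN : Odd N) (hcard : Nat.card (K ≃ₐ[F] K) = N)
    {B : Matrix (Fin g) (Fin g) K} (hB : B.det ≠ 0)
    (hB' : ∀ σ : K ≃ₐ[ℚ] K, (kM ρ σ).transpose * B = B.map σ) (φ : K →+* ℂ) (c : K ≃ₐ[ℚ] K)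
    (hc : ∀ x : K, φ (c x) = (starRingEnd ℂ) (φ x))
    {ε : Fin g → ℤˣ} {C : Matrix (Fin g) (Fin g) ℚ} (hC : C.det ≠ 0)
    (hC' : ∀ i, ((ρ c : Matrix (Fin g) (Fin g) ℤ).map (Int.cast : ℤ → ℚ)).mulVec (C i) =
      ((ε i : ℤ) : ℚ) • C i) {Rp Cp : ℝ} {k : ℤ} (hk0 : k ≠ 0)
    (hk : (2 * om + 1) * Rp = k * (Complex.I * (Cp / Rp : ℝ))) :
    ∃ t : ℚ, t ≠ 0 ∧ (Matrix.of fun i j => per Rp Cp (ε i) * ∑ l, (C i l : ℂ) * φ (B l j)).det =
      t * Rp ^ g := by
  classical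
  set b := (Finset.univ.filter fun i => ε i ≠ 1).card with hbdef
  -- the sign
  have h1 : C * ((ρ c : Matrix (Fin g) (Fin g) ℤ).map (Int.cast : ℤ → ℚ)).transpose =
      Matrix.diagonal (fun i => ((ε i : ℤ) : ℚ)) * C := by
    ext i j
    have h0 := congrFun (hC' i) j
    rw [Pi.smul_apply, smul_eq_mul] at h0
    rw [Matrix.diagonal_mul, ← h0]
    simp only [Matrix.mul_apply, Matrix.mulVec, dotProduct, Matrix.transpose_apply]
    exact Finset.sum_congr rfl fun l _ => mul_comm _ _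
  have h2 := congrArg Matrix.det h1
  rw [Matrix.det_mul, Matrix.det_mul, Matrix.det_transpose, Matrix.det_diagonal, mul_comm] at h2
  have h3 := mul_right_cancel₀ hC h2
  have h4 : ((ρ c : Matrix (Fin g) (Fin g) ℤ).map (Int.cast : ℤ → ℚ)).det =
      ((ρ c : Matrix (Fin g) (Fin g) ℤ).det : ℚ) :=
    (RingHom.map_det (Int.castRingHom ℚ) _).symm
  have h5 : (ρ c : Matrix (Fin g) (Fin g) ℤ).det = (-1) ^ b := by
    rw [h4] at h3
    rw [← prod_sign]
    exact_mod_cast h3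
  obtain ⟨t, ht0, ht⟩ := det_rat ρ hN hcard hB hB' φ c hc h5
  -- the determinant
  have h6 : (Matrix.of fun i j => per Rp Cp (ε i) * ∑ l, (C i l : ℂ) * φ (B l j)) =
      Matrix.diagonal (fun i => per Rp Cp (ε i)) * (C.map (Rat.cast : ℚ → ℂ) * B.map φ) := by
    ext i j
    rw [Matrix.diagonal_mul, Matrix.of_apply, Matrix.mul_apply]
    rfl
  have h7 : (C.map (Rat.cast : ℚ → ℂ)).det = (C.det : ℂ) :=
    (RingHom.map_det (Rat.castHom ℂ) _).symm
  have h8 : (B.map φ).det = φ B.det := (RingHom.map_det φ _).symm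
  have h9 : ∏ i, per Rp Cp (ε i) = (Rp : ℂ) ^ g * ((2 * om + 1) / k) ^ b := by
    have e : ∀ i, per Rp Cp (ε i) = Rp * (if ε i ≠ 1 then (2 * om + 1) / (k : ℂ) else 1) := by
      intro i
      unfold per
      have hk' : (k : ℂ) ≠ 0 := by exact_mod_cast hk0
      by_cases h : ε i = 1
      · rw [if_pos h, if_neg (fun h' => h' h), mul_one]
      · rw [if_neg h, if_pos h]
        field_simp
        linear_combination -hk
    rw [Finset.prod_congr rfl fun i _ => e i, Finset.prod_mul_distrib, ← Finset.prod_filter,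
      Finset.prod_const, Finset.prod_const, Finset.card_univ, Fintype.card_fin]
  have hk' : (k : ℂ) ^ b ≠ 0 := pow_ne_zero b (by exact_mod_cast hk0)
  refine ⟨C.det * t / k ^ b, div_ne_zero (mul_ne_zero hC ht0)
    (pow_ne_zero b (by exact_mod_cast hk0)), ?_⟩
  rw [h6, Matrix.det_mul, Matrix.det_mul, Matrix.det_diagonal, h7, h8, h9, div_pow]
  push_cast
  rw [← ht]
  field_simp

end

end Pool.Agent.N883.Q
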