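import Pool.Agent.N883.Q.Real
import Mathlib.Analysis.Calculus.Deriv.Star

/-!
# The rationality of the value
-/

set_option autoImplicit false
set_option linter.unusedSectionVars false

namespace Pool.Agent.N883.Q

open NumberField IsDedekindDomain Filter Topology H667R3

open scoped Pointwise PeriodPair

open Pool.Agent.Y696 Pool.Agent.W192.HK Pool.Agent.TH936.CM Pool.Agent.TH936.PU

open Pool.Agent.W192.CM (nu)

open Pool.Agent.R431.B

variable {K : Type} [Field K] [NumberField K] [IsGalois ℚ K] {ι : eis →+* 𝓞 K} {G : Type}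
  [CommGroup G] [Finite G] [MulSemiringAction G (𝓞 K)] {c : eis}
  {art : (eis ⧸ (sp c : Ideal eis))ˣ →* G} {i : G →* (K ≃ₐ[ℚ] K)} {g : ℕ}
  (ρ : (K ≃ₐ[ℚ] K) →* GL (Fin g) ℤ)

variable {m : ℕ} {b : Module.Basis (Fin g) ℂ (Fin g → ℂ)} {χ : Fin g → MulChar G ℂ}
  {F : Fin g → ℂ → ℂ} {S : Finset Nat.Primes} {E : Nat.Primes → ℂ → ℂ}
  {L : PeriodPair} {Ω : ℂ}

/-- the product of the `L`-functions is real on the real line -/
theorem prod_conj (h : Fac ρ i art m b χ F S E) (s : ℂ) :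
    (starRingEnd ℂ) (∏ j, F j ((starRingEnd ℂ) s)) = ∏ j, F j s := by
  classical
  have hV : ∃ V : Nat.Primes → HeightOneSpectrum (𝓞 K),
      ∀ p : Nat.Primes, ((p : ℕ) : 𝓞 K) ∈ (V p).asIdeal := by
    have := fun p : Nat.Primes => exists_place (K := K) p.2
    choose V hV using this
    exact ⟨V, hV⟩
  obtain ⟨V, hV⟩ := hV
  let H : ℂ → ℂ := fun s => ∏ j, F j s
  have hH : Differentiable ℂ H := by
    intro s
    have h1 : DifferentiableAt ℂ (∏ j, F j) s :=
      DifferentiableAt.finsetProd fun j _ => (h.diffF j) s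
    convert h1 using 1
    ext s
    simp [H]
  have hH' : Differentiable ℂ (fun s => (starRingEnd ℂ) (H ((starRingEnd ℂ) s))) := by
    intro s
    have h1 := (hH ((starRingEnd ℂ) s)).conj_conj
    rw [Complex.conj_conj] at h1
    exact h1
  have h3 : (fun s => (starRingEnd ℂ) (H ((starRingEnd ℂ) s))) = H := by
    refine entire_eq hH' hH (3 / 2) fun z hz => ?_
    have hz' : 3 / 2 < ((starRingEnd ℂ) z).re := by rwa [Complex.conj_re]
    have h4 := h.prod V hV _ hz'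
    have h5 := h.prod V hV z hz
    have h6 := h4.map (starRingEnd ℂ) Complex.continuous_conj
    refine h6.unique (h5.congr_fun fun p => ?_)
    simp only [Function.comp]
    split_ifs
    · rw [map_one]
    · rw [conj_euler, Complex.conj_conj]
  exact congrFun h3 s

lemma prod_real (h : Fac ρ i art m b χ F S E) :
    (starRingEnd ℂ) (∏ j, F j 1) = ∏ j, F j 1 := by
  have := prod_conj ρ h 1
  rwa [map_one] at this

lemma prod_Alg (hC : Cur L Ω) (h : Fac ρ i art m b χ F S E) :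
    (6 : ℂ) ^ g * (∏ j, F j 1) = (kap L Ω * Ω) ^ g * Alg L Ω F := by
  have hkΩ : kap L Ω * Ω ≠ 0 := mul_ne_zero (kap_ne hC) hC.lat.ne
  have h1 := prod_real ρ h
  rw [map_prod] at h1
  unfold Alg
  rw [Finset.prod_div_distrib, Finset.prod_mul_distrib, h1]
  simp only [Finset.prod_const, Finset.card_univ, Fintype.card_fin, nu_six]
  rw [mul_div_cancel₀ _ (pow_ne_zero g hkΩ)]
  norm_num

/-- the rationality -/
theorem rat_val (D : DatQ ι G c art) (hc : c = (m : eis)) (hm0 : m ≠ 0)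
    (hodd : Odd (Nat.card G)) (h : Fac ρ i art m b χ F S E) (hC : Cur L Ω)
    (hΩ : ((starRingEnd ℂ) Ω) ^ 6 = Ω ^ 6) :
    ∃ r : ℚ, (∏ p ∈ S, (E p 1)⁻¹) * ∏ j, F j 1 = r * (kap L Ω * Ω) ^ g := by
  have hkΩ : kap L Ω * Ω ≠ 0 := mul_ne_zero (kap_ne hC) hC.lat.ne
  have h1 := prod_Alg ρ hC h
  have hreal : (starRingEnd ℂ) (Alg L Ω F) = Alg L Ω F := by
    have h2 := congrArg (starRingEnd ℂ) h1
    rw [map_mul, map_mul, map_pow, map_pow, prod_real ρ h, kap_real hC hΩ, map_ofNat, h1] at h2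
    exact (mul_left_cancel₀ (pow_ne_zero g hkΩ) h2).symm
  obtain ⟨r, hr⟩ := rat_of_om hreal fun σ hσ => alg_fixed ρ D hc hm0 hodd h hC hσ
  have hEp : ∀ p ∈ S, ∃ t : ℚ, (E p 1)⁻¹ = t := by
    intro p hp
    obtain ⟨v, hv⟩ := exists_place (K := K) p.2
    rw [← h.valE p hp 1 v hv]
    exact rat_euler ρ _ v p
  have hE : ∃ t : ℚ, (∏ p ∈ S, (E p 1)⁻¹) = t := by
    have : ∀ p : Nat.Primes, ∃ t : ℚ, p ∈ S → (E p 1)⁻¹ = t := by
      intro p
      by_cases hp : p ∈ S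
      · obtain ⟨t, ht⟩ := hEp p hp
        exact ⟨t, fun _ => ht⟩
      · exact ⟨0, fun h' => absurd h' hp⟩
    choose t ht using this
    exact ⟨∏ p ∈ S, t p, by
      rw [Finset.prod_congr rfl fun p hp => ht p hp]
      push_cast
      rfl⟩
  obtain ⟨t, ht⟩ := hE
  refine ⟨t * (r / 6 ^ g), ?_⟩
  have h6 : (6 : ℂ) ^ g ≠ 0 := pow_ne_zero g (by norm_num)
  rw [ht]
  push_cast
  rw [← hr]
  have h9 : ∏ j, F j 1 = (kap L Ω * Ω) ^ g * Alg L Ω F / (6 : ℂ) ^ g := by
    rw [eq_div_iff h6]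
    linear_combination h1
  rw [h9]
  ring

end Pool.Agent.N883.Q
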