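import Pool.Agent.N883.Q.Det2
import Pool.Agent.Y696.Stm
import Pool.Agent.Y696.Bld

/-!
# The theorem for the extensions with their Artin maps
-/

set_option autoImplicit false
set_option linter.unusedSectionVars false

namespace Pool.Agent.N883.Q

open NumberField IsDedekindDomain MeasureTheory

open Pool.Agent.Y696 Pool.Agent.W192.HK Pool.Agent.TH936.CM Pool.Agent.TH936.PU

open Pool.Agent.R431.B

open Pool.Agent.R431.B.Per (cubic)

section dat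

variable {F K : Type} [Field F] [NumberField F] [IsCyclotomicExtension {3} ℚ F] [Field K]
  [NumberField K] [Algebra F K]

theorem mkDatQ [IsGalois F K] {c : 𝓞 F}
    {art : (𝓞 F ⧸ Ideal.span {c})ˣ →* Gal(K/F)} (h : Art c art) (e : 𝓞 F ≃+* eis)
    (hc0 : c ≠ 0) (hc3 : IsCoprime c 3) :
    letI := commG h
    DatQ (iF K e) Gal(K/F) (e c) (art.comp (Units.map (qe e c : _ →* _))) := by
  let := commG h
  have hmap : ∀ k : ℕ, IsCoprime c (k : 𝓞 F) → IsCoprime (e c) (k : eis) := by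
    intro k hk
    have := hk.map (e : 𝓞 F →+* eis)
    rwa [map_natCast] at this
  refine ⟨?_, ?_, ?_, ?_, ?_, ?_⟩
  · exact (map_ne_zero_iff _ e.injective).2 hc0
  · exact_mod_cast hmap 3 (by exact_mod_cast hc3)
  · intro b hb
    obtain ⟨a, ha⟩ := Algebra.IsInvariant.isInvariant (A := 𝓞 F) (G := Gal(K/F)) b hb
    exact ⟨e a, by rw [iF_apply, e.symm_apply_apply, ha]⟩
  · intro g a
    rw [iF_apply]
    exact smul_algebraMap (α := Gal(K/F)) g (e.symm a)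
  · intro v hv g hg
    rw [iF_apply, e.symm_apply_apply] at hv
    exact unr_g v (h.unr v hv) hg
  · intro π hπ u hu v hv x
    rw [iF_apply] at hv
    have h1 : Prime (e.symm π) := (MulEquiv.prime_iff (e.symm : eis ≃* 𝓞 F)).2 hπ
    have h2 : Nat.card (𝓞 F ⧸ Ideal.span {e.symm π}) = Nat.card (eis ⧸ (sp π : Ideal eis)) := by
      have := qe e (e.symm π)
      rw [e.apply_symm_apply] at this
      exact (Nat.card_congr this.toEquiv).symm
    rw [← h2]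
    refine h.frob (e.symm π) h1 (Units.map (qe e c : _ →* _) u) ?_ v hv x
    rw [Units.coe_map]
    change qe e c (u : _) = _
    rw [hu, qe_mk]

end dat

lemma v_le_int {Γ : Type} [LinearOrderedCommGroupWithZero Γ] (w : Valuation ℂ Γ) (n : ℤ) :
    w (n : ℂ) ≤ 1 := by
  have := v_eis (v := w) (n : eis)
  exact_mod_cast this

/-- a rational number that is a unit at a valuation above `q` -/
lemma rat_unit {Γ : Type} [LinearOrderedCommGroupWithZero Γ] {w : Valuation ℂ Γ} {q : ℕ}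
    (hw : w (q : ℂ) < 1) {r : ℚ} (hr : w (r : ℂ) = 1) :
    ¬ (q : ℤ) ∣ r.num ∧ ¬ q ∣ r.den := by
  have hden : w ((r.den : ℤ) : ℂ) ≤ 1 := v_le_int w _
  have h1 : (r : ℂ) * ((r.den : ℤ) : ℂ) = ((r.num : ℤ) : ℂ) := by
    have h2 : r * (r.den : ℚ) = r.num := Rat.mul_den_eq_num r
    have h3 := congrArg (Rat.cast : ℚ → ℂ) h2
    push_cast at h3 ⊢
    exact h3
  have h2 : w ((r.den : ℤ) : ℂ) = w ((r.num : ℤ) : ℂ) := by
    rw [← h1, map_mul, hr, one_mul]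
  have key : ∀ z : ℤ, (q : ℤ) ∣ z → w (z : ℂ) < 1 := by
    rintro z ⟨t, rfl⟩
    push_cast
    rw [map_mul]
    calc w (q : ℂ) * w (t : ℂ) ≤ w (q : ℂ) * 1 := by
          gcongr
          exact v_le_int w t
      _ < 1 := by rw [mul_one]; exact hw
  have hcop : IsCoprime (r.num) (r.den : ℤ) := by
    rw [Int.isCoprime_iff_gcd_eq_one]
    exact r.reduced
  have hone : ¬ (w ((r.num : ℤ) : ℂ) < 1 ∧ w ((r.den : ℤ) : ℂ) < 1) := by
    rintro ⟨a1, a2⟩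
    obtain ⟨x, y, hxy⟩ := hcop
    have h3 : ((x : ℤ) : ℂ) * ((r.num : ℤ) : ℂ) + ((y : ℤ) : ℂ) * (((r.den : ℤ) : ℤ) : ℂ) = 1 := by
      exact_mod_cast congrArg (Int.cast : ℤ → ℂ) hxy
    have h4 : w (((x : ℤ) : ℂ) * ((r.num : ℤ) : ℂ)) < 1 := by
      rw [map_mul]
      calc w (x : ℂ) * w ((r.num : ℤ) : ℂ) ≤ 1 * w ((r.num : ℤ) : ℂ) := by
            gcongr
            exact v_le_int w x
        _ < 1 := by rw [one_mul]; exact a1
    have h5 : w (((y : ℤ) : ℂ) * (((r.den : ℤ) : ℤ) : ℂ)) < 1 := by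
      rw [map_mul]
      calc w (y : ℂ) * w (((r.den : ℤ) : ℤ) : ℂ) ≤ 1 * w (((r.den : ℤ) : ℤ) : ℂ) := by
            gcongr
            exact v_le_int w y
        _ < 1 := by rw [one_mul]; exact a2
    have h6 := w.map_add_lt h4 h5
    rw [h3, map_one] at h6
    exact lt_irrefl _ h6
  refine ⟨fun h => hone ?_, fun h => hone ?_⟩
  · have h7 := key _ h
    exact ⟨h7, h2 ▸ h7⟩
  · have h7 := key (r.den : ℤ) (by exact_mod_cast h)
    exact ⟨h2 ▸ h7, h7⟩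

section main

variable {F K : Type} [Field F] [NumberField F] [IsCyclotomicExtension {3} ℚ F] [Field K]
  [NumberField K] [Algebra F K] [IsGalois ℚ K]

/-- everything -/
theorem main_part {q n : ℕ} (hq : q.Prime) (h5 : 5 ≤ q) (hn : Module.finrank F K = q ^ n) {m : ℕ}
    (hm : ∀ p : ℕ, p.Prime → p ∣ m → p ≠ 3 ∧ p ≠ q ∧ ¬ q ∣ pts (E27 ℤ) (ZMod p) + 1)
    {art : (𝓞 F ⧸ Ideal.span {(m : 𝓞 F)})ˣ →* Gal(K/F)} (hart : IsArtin (m : 𝓞 F) art) {g : ℕ}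
    (ρ : (K ≃ₐ[ℚ] K) →* GL (Fin g) ℤ) {Rp Cp : ℝ}
    (hR : Rp = 2 * ∫ x in {x : ℝ | 0 < cubic (E27 ℤ) x}, 1 / Real.sqrt (cubic (E27 ℤ) x))
    (hCp : Cp = 2 * (2 * ∫ x : ℂ, 1 / ‖cubic (E27 ℤ) x‖)) :
    0 < Rp ∧ 0 < Cp ∧
    (∀ (φ : K →+* ℂ) (c : K ≃ₐ[ℚ] K), (∀ x : K, φ (c x) = (starRingEnd ℂ) (φ x)) →
      ∀ (B : Matrix (Fin g) (Fin g) K) (C : Matrix (Fin g) (Fin g) ℚ) (ε : Fin g → ℤˣ),
      B.det ≠ 0 → (∀ σ : K ≃ₐ[ℚ] K, (kM ρ σ).transpose * B = B.map σ) → C.det ≠ 0 →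
      (∀ i, ((ρ c : Matrix (Fin g) (Fin g) ℤ).map (Int.cast : ℤ → ℚ)).mulVec (C i) =
        ((ε i : ℤ) : ℚ) • C i) →
      ∃ t : ℚ, t ≠ 0 ∧
        (Matrix.of fun i j => per Rp Cp (ε i) * ∑ l, (C i l : ℂ) * φ (B l j)).det = t * Rp ^ g) ∧
    ∃ L : ℂ → ℂ, MeromorphicOn L Set.univ ∧
      (∀ V : Nat.Primes → HeightOneSpectrum (𝓞 K),
        (∀ p : Nat.Primes, ((p : ℕ) : 𝓞 K) ∈ (V p).asIdeal) → ∀ s : ℂ, 3 / 2 < s.re →
        HasProd (fun p : Nat.Primes => euler ρ (E27 ℤ) (V p) s p) (L s)) ∧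
      AnalyticAt ℂ L 1 ∧ L 1 ≠ 0 ∧
      ∃ r : ℚ, L 1 = r * Rp ^ g ∧ ¬ (q : ℤ) ∣ r.num ∧ ¬ q ∣ r.den := by
  classical
  have hgal : IsGalois F K := IsGalois.tower_top_of_isGalois ℚ F K
  have hA : Art (m : 𝓞 F) art := ⟨hart.surj, hart.unr, hart.frob⟩
  let := commG hA
  have hm0 : m ≠ 0 := by
    rintro rfl
    exact (hm 3 Nat.prime_three (dvd_zero 3)).1 rfl
  have hm3 : ∀ p : ℕ, p.Prime → p ∣ m → p ≠ 3 := fun p hp hpm => (hm p hp hpm).1
  obtain ⟨ζ, hζ⟩ := IsCyclotomicExtension.exists_isPrimitiveRoot ℚ F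
    (Set.mem_singleton 3) (by norm_num)
  obtain ⟨σ, hσ⟩ := exists_emb hζ
  have hmF : (m : 𝓞 F) ≠ 0 := by exact_mod_cast hm0
  have hc3 : IsCoprime (m : 𝓞 F) 3 := by
    have h3 : ¬ 3 ∣ m := fun h => hm3 3 Nat.prime_three h rfl
    have h4 : Nat.Coprime m 3 := ((Nat.Prime.coprime_iff_not_dvd Nat.prime_three).2 h3).symm
    have h5 : IsCoprime (m : ℤ) ((3 : ℕ) : ℤ) := Nat.isCoprime_iff_coprime.2 h4
    have h6 := h5.map (Int.castRingHom (𝓞 F))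
    simpa using h6
  have D := mkDatQ hA (isoE hζ σ hσ) hmF hc3
  have hFD : FD (K := K) (G := Gal(K/F)) (inc F K) :=
    { act := fun τ x => rfl
      inj := inc_inj
      mod1 := fun p hp v hv h1 σ hσ => frob_mod1 hp hv h1 hσ
      mod2 := fun p hp v hv h1 σ hσ => frob_mod2 hp hv h1 hσ
      quot := fun p hp v hv h3 σ hσ σ' hσ' => frob_quot hp hv h3 hσ hσ' }
  have hcard : Nat.card Gal(K/F) = q ^ n := by rw [← hn]; exact IsGalois.card_aut_eq_finrank F K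
  have hodd : Odd (q ^ n) := (hq.odd_of_ne_two (by omega)).pow
  have hc : isoE hζ σ hσ (m : 𝓞 F) = (m : eis) := map_natCast _ m
  obtain ⟨b, χ, Ff, S, E, hF⟩ := exists_fac ρ D hFD hc hm0 hm3
  obtain ⟨Ω₀, hΩ₀, hC₀⟩ := exists_cur
  obtain ⟨Ω, hC, hΩ⟩ := exists_om hC₀.g2 hC₀.g3
  obtain ⟨p1, p2, p3, k, hk0, hk⟩ := periods hC hΩ hR hCp
  refine ⟨p1, p2, ?_, ?_⟩
  · intro φ c hc B C ε hB hB' hCd hC'
    exact det_period ρ hodd hcard hB hB' φ c hc hCd hC' hk0 hk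
  obtain ⟨U, hU⟩ := exists_over_q hq
  have hHdiff : Differentiable ℂ (fun s => ∏ j, Ff j s) := by
    intro s
    have h1 : DifferentiableAt ℂ (∏ j, Ff j) s :=
      DifferentiableAt.finsetProd fun j _ => (hF.diffF j) s
    convert h1 using 1
    ext s
    simp
  have hEdiff : Differentiable ℂ (fun s => ∏ p ∈ S, E p s) := by
    intro s
    have h1 : DifferentiableAt ℂ (∏ p ∈ S, E p) s :=
      DifferentiableAt.finsetProd fun p hp => (hF.diffE p hp) s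
    convert h1 using 1
    ext s
    simp
  obtain ⟨u1, u2, u3⟩ := unit_val ρ D hc hm0 hF hq h5 hcard hm hC hΩ U.valuation hU
  have hE1 : (∏ p ∈ S, E p 1) ≠ 0 := by
    refine Finset.prod_ne_zero_iff.2 fun p hp => ?_
    rw [← Valuation.ne_zero_iff U.valuation, u1 p hp]
    exact one_ne_zero
  have hdef : ∀ s, (∏ p ∈ S, (E p s)⁻¹) * ∏ j, Ff j s = (∏ p ∈ S, E p s)⁻¹ * ∏ j, Ff j s := by
    intro s
    rw [Finset.prod_inv_distrib]
  refine ⟨fun s => (∏ p ∈ S, (E p s)⁻¹) * ∏ j, Ff j s, ?_, ?_, ?_, ?_, ?_⟩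
  · intro s _
    have h1 : MeromorphicAt (fun s => (∏ p ∈ S, E p s)⁻¹ * ∏ j, Ff j s) s :=
      ((hEdiff.analyticAt s).meromorphicAt.inv).mul (hHdiff.analyticAt s).meromorphicAt
    exact (funext hdef) ▸ h1
  · intro V hV s hs
    exact hF.prod' ρ V hV s hs
  · have h1 : AnalyticAt ℂ (fun s => (∏ p ∈ S, E p s)⁻¹ * ∏ j, Ff j s) 1 :=
      ((hEdiff.analyticAt 1).inv hE1).mul (hHdiff.analyticAt 1)
    exact (funext hdef) ▸ h1
  · show (∏ p ∈ S, (E p 1)⁻¹) * ∏ j, Ff j 1 ≠ 0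
    rw [← Valuation.ne_zero_iff U.valuation, u3]
    exact pow_ne_zero g ((Valuation.ne_zero_iff _).2 hC.lat.ne)
  · obtain ⟨r, hr⟩ := rat_val ρ D hc hm0 (by rw [hcard]; exact hodd) hF hC hΩ
    have h3 : U.valuation (3 : ℂ) = 1 := v_three_q hq h5 hU
    have hkw : U.valuation (kap (hex Ω₀ hΩ₀) Ω) = 1 := by
      have h6 : U.valuation (kap (hex Ω₀ hΩ₀) Ω) ^ 6 = 1 := by
        have e : (27 : ℂ) = 3 ^ 3 := by norm_num
        rw [← map_pow, kap_six hC, Valuation.map_neg, e, map_pow, h3, one_pow]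
      rcases pow_eq_one_iff.1 h6 with h7 | h7
      · exact h7
      · exact absurd h7 (by norm_num)
    have hRw : U.valuation (Rp : ℂ) = U.valuation Ω := by
      rcases p3 with h | h
      · rw [← h, map_mul, hkw, one_mul]
      · rw [← Valuation.map_neg, ← h, map_mul, hkw, one_mul]
    have hΩw : U.valuation Ω ≠ 0 := (Valuation.ne_zero_iff _).2 hC.lat.ne
    have key : ∀ r : ℚ, (∏ p ∈ S, (E p 1)⁻¹) * ∏ j, Ff j 1 = r * Rp ^ g →
        ¬ (q : ℤ) ∣ r.num ∧ ¬ q ∣ r.den := by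
      intro r hr
      apply rat_unit hU
      have h8 := u3
      rw [hr, map_mul, map_pow, hRw] at h8
      exact mul_eq_right₀ (pow_ne_zero g hΩw) |>.1 h8
    rcases p3 with h | h
    · rw [h] at hr
      exact ⟨r, hr, key r hr⟩
    · have hr' : (∏ p ∈ S, (E p 1)⁻¹) * ∏ j, Ff j 1 = (((-1) ^ g * r : ℚ) : ℂ) * Rp ^ g := by
        rw [hr, h, neg_pow]
        push_cast
        ring
      exact ⟨(-1) ^ g * r, hr', key _ hr'⟩

end main

end Pool.Agent.N883.Q
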