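import Pool.Agent.N883.Q.An

/-!
# The `L`-function of `E ⊗ M`
-/

set_option autoImplicit false
set_option linter.unusedSectionVars false

namespace Pool.Agent.N883.Q

open NumberField IsDedekindDomain Filter Topology

open scoped Pointwise

open Pool.Agent.Y696 Pool.Agent.W192.HK Pool.Agent.TH936.CM Pool.Agent.TH936.PU

open Pool.Agent.W192.CM (nu)

open Pool.Agent.R431.B

section

variable {K : Type} [Field K] [NumberField K] [IsGalois ℚ K] {ι : eis →+* 𝓞 K} {G : Type}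
  [CommGroup G] [Finite G] [MulSemiringAction G (𝓞 K)] {c : eis}
  {art : (eis ⧸ (sp c : Ideal eis))ˣ →* G} {i : G →* (K ≃ₐ[ℚ] K)} {g : ℕ}
  (ρ : (K ≃ₐ[ℚ] K) →* GL (Fin g) ℤ) {b : Module.Basis (Fin g) ℂ (Fin g → ℂ)}
  {χ : Fin g → MulChar G ℂ}

/-- the eigenvalues of the square of the average of the Frobenius automorphisms -/
theorem frob_avg2 (hFD : FD i) (hb : ∀ (u : G) j, Eig (b j) (cM (ρ (i u))) (χ j u)) {p : ℕ}
    (hp : p.Prime) {v : HeightOneSpectrum (𝓞 K)} (hv : (p : 𝓞 K) ∈ v.asIdeal) (h1 : p % 3 = 2) :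
    ∃ l : Fin g → ℂ, (∀ j, Eig (b j) (frobM ρ v ^ 2) (l j)) ∧
      ∀ j, l j = 0 ∨ ∃ τ : G, l j = χ j τ := by
  classical
  have hp3 : p ≠ 3 := by rintro rfl; norm_num at h1
  obtain ⟨σ₀, hσ₀⟩ := frob_nonempty v
  let _ : Fintype (FrobSet v) := Fintype.ofFinite _
  have hmul : ∀ j : G, (∀ x : 𝓞 K, j • x - x ∈ v.asIdeal) → ∀ σ ∈ FrobSet v,
      i j * σ ∈ FrobSet v := by
    intro j hj σ hσ
    rw [frob_iff hp hv] at hσ ⊢
    intro x
    have h3 := v.asIdeal.add_mem (hj (σ • x)) (hσ x)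
    rw [sub_add_sub_cancel] at h3
    rw [mul_smul, hFD.act]
    exact h3
  have hmul' : ∀ j : G, (∀ x : 𝓞 K, j • x - x ∈ v.asIdeal) → ∀ σ ∈ FrobSet v,
      σ * i j ∈ FrobSet v := by
    intro j hj σ hσ
    rw [frob_iff hp hv] at hσ ⊢
    intro x
    rw [mul_smul, hFD.act]
    have h3 := hσ (j • x)
    have h4 : (j • x) ^ p - x ^ p ∈ v.asIdeal :=
      Ideal.mem_of_dvd _ (sub_dvd_pow_sub_pow (j • x) x p) (hj x)
    have h5 := v.asIdeal.add_mem h3 h4
    rwa [sub_add_sub_cancel] at h5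
  have hF : ∀ a d : FrobSet v, ∃ τ, i τ = a.1 * d.1 := by
    intro a d
    obtain ⟨τ1, h1', -⟩ := hFD.quot p hp v hv hp3 a.1 a.2 d.1 d.2
    obtain ⟨τ2, h2', -⟩ := hFD.mod2 p hp v hv h1 d.1 d.2
    exact ⟨τ1 * τ2, by rw [map_mul, h1', h2']; group⟩
  choose F hF using hF
  set N : ℂ := (Nat.card (FrobSet v) : ℂ) with hN
  have hNe : Nonempty (FrobSet v) := ⟨⟨σ₀, hσ₀⟩⟩
  have hN0 : N ≠ 0 := by
    rw [hN]
    exact_mod_cast Nat.card_pos.ne'
  have hsq : frobM ρ v ^ 2 = (N⁻¹ * N⁻¹) • ∑ a : FrobSet v, ∑ d : FrobSet v,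
      cM (ρ (i (F a d))) := by
    have h2 : frobM ρ v = N⁻¹ • ∑ a : FrobSet v, cM (ρ a.1) := by
      unfold frobM
      rw [finsum_eq_sum_of_fintype]
      rfl
    rw [h2, pow_two, Matrix.smul_mul, Matrix.mul_smul, smul_smul, Matrix.sum_mul]
    congr 1
    refine Finset.sum_congr rfl fun a _ => ?_
    rw [Matrix.mul_sum]
    refine Finset.sum_congr rfl fun d _ => ?_
    rw [hF, map_mul, cM_mul]
  refine ⟨fun j => (N⁻¹ * N⁻¹) * ∑ a : FrobSet v, ∑ d : FrobSet v, χ j (F a d),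
    fun j => ?_, fun j => ?_⟩
  · rw [hsq]
    refine Eig.smul ?_ _
    refine Eig.sum _ fun a _ => Eig.sum _ fun d _ => ?_
    exact hb (F a d) j
  · by_cases hI : ∀ t : G, (∀ x : 𝓞 K, t • x - x ∈ v.asIdeal) → χ j t = 1
    · right
      refine ⟨F ⟨σ₀, hσ₀⟩ ⟨σ₀, hσ₀⟩, ?_⟩
      have key : ∀ a d : FrobSet v, χ j (F a d) = χ j (F ⟨σ₀, hσ₀⟩ ⟨σ₀, hσ₀⟩) := by
        intro a d
        obtain ⟨s, hs, hs2⟩ := hFD.quot p hp v hv hp3 a.1 a.2 σ₀ hσ₀
        obtain ⟨t, ht, ht2⟩ := hFD.quot p hp v hv hp3 d.1 d.2 σ₀ hσ₀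
        obtain ⟨t', ht', ht2'⟩ := hFD.quot p hp v hv hp3 _ (hmul' t ht2 σ₀ hσ₀) σ₀ hσ₀
        have e : F a d = s * t' * F ⟨σ₀, hσ₀⟩ ⟨σ₀, hσ₀⟩ := by
          apply hFD.inj
          rw [hF, map_mul, map_mul, hs, ht', hF, ht]
          group
        rw [e, map_mul, map_mul, hI s hs2, hI t' ht2', one_mul, one_mul]
      have h2 : ∑ a : FrobSet v, ∑ d : FrobSet v, χ j (F a d) =
          N * (N * χ j (F ⟨σ₀, hσ₀⟩ ⟨σ₀, hσ₀⟩)) := by
        rw [Finset.sum_congr rfl fun a _ => Finset.sum_congr rfl fun d _ => key a d]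
        rw [Finset.sum_const, Finset.sum_const, Finset.card_univ, nsmul_eq_mul, nsmul_eq_mul,
          ← Nat.card_eq_fintype_card]
      show (N⁻¹ * N⁻¹) * ∑ a : FrobSet v, ∑ d : FrobSet v, χ j (F a d) = _
      rw [h2]
      field_simp
    · left
      push Not at hI
      obtain ⟨t, ht, ht1⟩ := hI
      let e : FrobSet v → FrobSet v := fun a => ⟨i t * a.1, hmul t ht a.1 a.2⟩
      have he : Function.Bijective e := by
        rw [← Finite.injective_iff_bijective]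
        intro x y hxy
        have h4 := congrArg Subtype.val hxy
        exact Subtype.ext (mul_left_cancel h4)
      have h5 : ∑ a : FrobSet v, ∑ d : FrobSet v, χ j (F a d) =
          χ j t * ∑ a : FrobSet v, ∑ d : FrobSet v, χ j (F a d) := by
        rw [Finset.mul_sum, ← (Equiv.ofBijective e he).sum_comp
          (fun a : FrobSet v => ∑ d : FrobSet v, χ j (F a d))]
        refine Finset.sum_congr rfl fun a _ => ?_
        rw [Finset.mul_sum]
        refine Finset.sum_congr rfl fun d _ => ?_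
        have e1 : F ((Equiv.ofBijective e he) a) d = t * F a d := by
          apply hFD.inj
          rw [hF, map_mul, hF]
          show i t * a.1 * d.1 = _
          group
        rw [e1, map_mul]
      have h6 : (χ j t - 1) * ∑ a : FrobSet v, ∑ d : FrobSet v, χ j (F a d) = 0 := by
        linear_combination -h5
      show (N⁻¹ * N⁻¹) * ∑ a : FrobSet v, ∑ d : FrobSet v, χ j (F a d) = 0
      rw [(mul_eq_zero.1 h6).resolve_left (sub_ne_zero.2 ht1), mul_zero]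

/-- the factor with given eigenvalues, for the supersingular primes -/
noncomputable def EF2 (l : Fin g → ℂ) (p : ℕ) (s : ℂ) : ℂ :=
  ∏ j, (1 + ((p : ℂ) ^ (1 - 2 * s)) * l j)

lemma euler_EF2 {l : Fin g → ℂ} {p : ℕ} (hp : p.Prime) (h3 : p % 3 = 2)
    {v : HeightOneSpectrum (𝓞 K)} (hl : ∀ j, Eig (b j) (frobM ρ v ^ 2) (l j)) (s : ℂ) :
    euler ρ (E27 ℤ) v s p = (EF2 l p s)⁻¹ := by
  unfold euler EF2
  have hp3 : p ≠ 3 := by rintro rfl; norm_num at h3
  have ha : ((((p : ℤ) - pts (E27 ℤ) (ZMod p) : ℤ) : ℂ)) = 0 := by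
    rw [pts_other hp (by omega)]
    simp
  rw [if_neg (dvd_disc hp hp3), ha, zero_mul, zero_smul, sub_zero]
  congr 1
  exact det_eig b fun j => (Eig.one (b j)).add ((hl j).smul _)

lemma EF2_diff (l : Fin g → ℂ) {p : ℕ} (hp : p.Prime) : Differentiable ℂ (EF2 l p) := by
  have h0 : (p : ℂ) ≠ 0 := by exact_mod_cast hp.ne_zero
  have h2 : Differentiable ℂ (fun s : ℂ => (p : ℂ) ^ (1 - 2 * s)) := by
    intro z
    exact ((differentiableAt_const _).sub
      ((differentiableAt_const _).mul differentiableAt_id)).const_cpow (Or.inl h0)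
  unfold EF2
  refine Differentiable.fun_finsetProd fun j _ => ?_
  exact (differentiable_const _).add (h2.mul (differentiable_const _))

end

section units

variable {g : ℕ} {Γ : Type} [LinearOrderedCommGroupWithZero Γ] {w : Valuation ℂ Γ} {q : ℕ}

/-- `p + 1 - a_p` prime to `q` -/
lemma v_pts (hq : q.Prime) (hw : w (q : ℂ) < 1) {p : ℕ} (h : ¬ q ∣ pts (E27 ℤ) (ZMod p) + 1) :
    w ((pts (E27 ℤ) (ZMod p) : ℂ) + 1) = 1 := by
  have := v_nat_prime hq hw h
  push_cast at this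
  exact this

lemma v_le_of (x : eis) : w (x : ℂ) ≤ 1 := v_eis x

/-- the ordinary primes -/
lemma v_mod1 (hq : q.Prime) (hw : w (q : ℂ) < 1) {p : ℕ} (hp : p.Prime) (h1 : p % 3 = 1)
    (h : ¬ q ∣ pts (E27 ℤ) (ZMod p) + 1) {P : HeightOneSpectrum eis}
    (hP : (p : eis) ∈ P.asIdeal) {π : eis} (hπ : P.asIdeal = sp π)
    (hπ1 : π - 1 ∈ (sp 3 : Ideal eis)) (hN : π * cj π = p) :
    w ((π : ℂ) - 1) = 1 ∧ w ((starRingEnd ℂ) (π : ℂ) - 1) = 1 := by
  have h2 := v_pts (w := w) hq hw h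
  rw [pts_mod1 hp h1 hP hπ hπ1 hN] at h2
  have hpc : (p : ℂ) = (π : ℂ) * (starRingEnd ℂ) (π : ℂ) := by
    have h3 := congrArg (fun t : eis => (t : ℂ)) hN
    push_cast at h3
    rw [cj_coe] at h3
    exact h3.symm
  have e : (p : ℂ) - (π : ℂ) - (starRingEnd ℂ) (π : ℂ) + 1 =
      ((π : ℂ) - 1) * ((starRingEnd ℂ) (π : ℂ) - 1) := by
    rw [hpc]
    ring
  rw [e, map_mul] at h2
  have a1 : w ((π : ℂ) - 1) ≤ 1 := v_sub_le (v_eis π) (by rw [map_one])
  have a2 : w ((starRingEnd ℂ) (π : ℂ) - 1) ≤ 1 := by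
    rw [← cj_coe]
    exact v_sub_le (v_eis (cj π)) (by rw [map_one])
  constructor
  · refine le_antisymm a1 ?_
    by_contra hlt
    rw [not_le] at hlt
    have := v_mul_lt' hlt a2
    rw [map_mul, h2] at this
    exact lt_irrefl _ this
  · refine le_antisymm a2 ?_
    by_contra hlt
    rw [not_le] at hlt
    have := v_mul_lt a1 hlt
    rw [map_mul, h2] at this
    exact lt_irrefl _ this

lemma v_prime (hq : q.Prime) (hw : w (q : ℂ) < 1) {p : ℕ} (hp : p.Prime) (hpq : p ≠ q) :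
    w (p : ℂ) = 1 :=
  v_nat_prime hq hw fun h => hpq ((Nat.prime_dvd_prime_iff_eq hq hp).1 h).symm

/-- the value at one of an ordinary ramified factor -/
lemma v_EFQ (hq : q.Prime) (hw : w (q : ℂ) < 1) {p : ℕ} (hp : p.Prime) (hpq : p ≠ q)
    (h1 : p % 3 = 1) (h : ¬ q ∣ pts (E27 ℤ) (ZMod p) + 1) {l : Fin g → ℂ}
    (hl : ∀ j, l j = 0 ∨ w (l j - 1) < 1) {P : HeightOneSpectrum eis}
    (hP : (p : eis) ∈ P.asIdeal) : w (EF l p 1) = 1 := by
  obtain ⟨π, hπ, hπ1, hN, -⟩ := over_mod1 hp hP h1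
  obtain ⟨k1, k2⟩ := v_mod1 hq hw hp h1 h hP hπ hπ1 hN
  have hpc : (p : ℂ) = (π : ℂ) * (starRingEnd ℂ) (π : ℂ) := by
    have h2 := congrArg (fun t : eis => (t : ℂ)) hN
    push_cast at h2
    rw [cj_coe] at h2
    exact h2.symm
  have hv := v_prime hq hw hp hpq
  rw [hpc, map_mul] at hv
  have a1 : w (π : ℂ) ≤ 1 := v_eis π
  have a2 : w ((starRingEnd ℂ) (π : ℂ)) ≤ 1 := by
    rw [← cj_coe]
    exact v_eis (cj π)
  have k3 : w (π : ℂ) = 1 := by
    refine le_antisymm a1 ?_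
    by_contra hlt
    rw [not_le] at hlt
    have := v_mul_lt' hlt a2
    rw [map_mul, hv] at this
    exact lt_irrefl _ this
  have k4 : w ((starRingEnd ℂ) (π : ℂ)) = 1 := by
    refine le_antisymm a2 ?_
    by_contra hlt
    rw [not_le] at hlt
    have := v_mul_lt a1 hlt
    rw [map_mul, hv] at this
    exact lt_irrefl _ this
  have ha : ((((p : ℤ) - pts (E27 ℤ) (ZMod p) : ℤ) : ℂ)) = (π : ℂ) + (starRingEnd ℂ) (π : ℂ) := by
    push_cast
    rw [pts_mod1 hp h1 hP hπ hπ1 hN]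
    ring
  unfold EF
  rw [map_prod]
  refine Finset.prod_eq_one fun j _ => ?_
  have h2 := v_ram k1 k2 k3 k4 (hl j) hpc
  rw [cpow_quad hp, Complex.cpow_neg_one, ha]
  exact h2

/-- the value at one of a supersingular ramified factor -/
lemma v_EF2 (hq : q.Prime) (hw : w (q : ℂ) < 1) {p : ℕ} (hp : p.Prime) (hpq : p ≠ q)
    (h1 : p % 3 = 2) (h : ¬ q ∣ pts (E27 ℤ) (ZMod p) + 1) {l : Fin g → ℂ}
    (hl : ∀ j, l j = 0 ∨ w (l j - 1) < 1) : w (EF2 l p 1) = 1 := by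
  have hv := v_prime hq hw hp hpq
  have h2 := v_pts (w := w) hq hw h
  rw [pts_other hp (by omega)] at h2
  have h0 : (p : ℂ) ≠ 0 := by exact_mod_cast hp.ne_zero
  unfold EF2
  rw [map_prod]
  refine Finset.prod_eq_one fun j _ => ?_
  have e : (1 : ℂ) + (p : ℂ) ^ (1 - 2 * (1 : ℂ)) * l j = (p : ℂ)⁻¹ * (p + l j) := by
    have e1 : (1 - 2 * (1 : ℂ)) = -1 := by ring
    rw [e1, Complex.cpow_neg_one]
    field_simp
  rw [e, map_mul, map_inv₀, hv, inv_one, one_mul]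
  rcases hl j with h3 | h3
  · rw [h3, add_zero, hv]
  · have e2 : (p : ℂ) + l j = ((p : ℂ) + 1) + (l j - 1) := by ring
    rw [e2, Valuation.map_add_eq_of_lt_left, h2]
    rw [h2]
    exact h3

/-- the values of the Hecke character at the primes that divide `m` -/
lemma v_psi_c (hq : q.Prime) (hw : w (q : ℂ) < 1) {m : ℕ} (hm0 : m ≠ 0)
    (hm : ∀ p : ℕ, p.Prime → p ∣ m → p ≠ 3 ∧ p ≠ q ∧ ¬ q ∣ pts (E27 ℤ) (ZMod p) + 1)
    {P : HeightOneSpectrum eis} (hP : (m : eis) ∈ P.asIdeal) : w (psi P.asIdeal - 1) = 1 := by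
  -- a prime number in `P` that divides `m`
  obtain ⟨p, hp, hpm, hpP⟩ : ∃ p : ℕ, p.Prime ∧ p ∣ m ∧ (p : eis) ∈ P.asIdeal := by
    have hmem : ∀ n : ℕ, n ≠ 0 → (n : eis) ∈ P.asIdeal →
        ∃ p : ℕ, p.Prime ∧ p ∣ n ∧ (p : eis) ∈ P.asIdeal := by
      intro n
      induction n using Nat.strong_induction_on with
      | _ n ih =>
        intro hn0 hn
        have hn1 : n ≠ 1 := by
          rintro rfl
          apply P.isPrime.ne_top
          rw [Ideal.eq_top_iff_one]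
          exact_mod_cast hn
        obtain ⟨p, hp, k, hk⟩ := Nat.exists_prime_and_dvd hn1
        have h1 : ((p : ℕ) : eis) * (k : eis) ∈ P.asIdeal := by
          rw [← Nat.cast_mul, ← hk]
          exact hn
        rcases P.isPrime.mem_or_mem h1 with h2 | h2
        · exact ⟨p, hp, ⟨k, hk⟩, h2⟩
        · have hk0 : k ≠ 0 := by
            rintro rfl
            rw [mul_zero] at hk
            exact hn0 hk
          have hkn : k < n := by
            rw [hk]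
            have := hp.two_le
            nlinarith [Nat.pos_of_ne_zero hk0]
          obtain ⟨p', hp', hd, hm'⟩ := ih k hkn hk0 h2
          exact ⟨p', hp', hd.trans ⟨p, by rw [hk, mul_comm]⟩, hm'⟩
    exact hmem m hm0 hP
  obtain ⟨hp3, hpq, hpts⟩ := hm p hp hpm
  have h5 : p % 3 < 3 := Nat.mod_lt _ (by norm_num)
  rcases (show p % 3 = 0 ∨ p % 3 = 1 ∨ p % 3 = 2 by omega) with h | h | h
  · exact absurd ((Nat.prime_dvd_prime_iff_eq Nat.prime_three hp).1
      (Nat.dvd_of_mod_eq_zero h)).symm hp3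
  · obtain ⟨π, hπ, hπ1, hN, hψ, -⟩ := over_mod1 hp hpP h
    rw [hψ]
    exact (v_mod1 hq hw hp h hpts hpP hπ hπ1 hN).1
  · obtain ⟨hψ, -, -⟩ := over_mod2 hp hpP h
    have h2 := v_pts (w := w) hq hw hpts
    rw [pts_other hp (by omega)] at h2
    rw [hψ]
    have e : -(p : ℂ) - 1 = -((p : ℂ) + 1) := by ring
    rw [e, w.map_neg, h2]

end units

end Pool.Agent.N883.Q
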