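import Pool.Agent.N883.Q.Fin1
import Pool.Agent.R431.B.Om

/-!
# The period
-/

set_option autoImplicit false
set_option linter.unusedSectionVars false

namespace Pool.Agent.N883.Q

open NumberField IsDedekindDomain Filter Topology H667R3 MeasureTheory

open scoped Pointwise PeriodPair

open Pool.Agent.Y696 Pool.Agent.W192.HK Pool.Agent.TH936.CM Pool.Agent.TH936.PU

open Pool.Agent.R431.B

open Pool.Agent.R431.B.Per (cubic)

lemma th_sq : (2 * om + 1) ^ 2 = -3 := by linear_combination 4 * om_sq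

lemma th_re : (2 * om + 1).re = 0 := by
  simp [om]
  norm_num

lemma th_ne : (2 * om + 1) ≠ 0 := by
  intro h
  have := th_sq
  rw [h] at this
  norm_num at this

lemma th_norm : Complex.normSq (2 * om + 1) = 3 := by
  have h1 := congrArg Complex.normSq th_sq
  rw [map_pow] at h1
  have h2 : Complex.normSq (-3 : ℂ) = 9 := by
    rw [Complex.normSq_neg]
    have : (3 : ℂ) = ((3 : ℝ) : ℂ) := by norm_num
    rw [this, Complex.normSq_ofReal]
    norm_num
  rw [h2] at h1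
  nlinarith [Complex.normSq_nonneg (2 * om + 1)]

lemma norm_six {z : ℂ} (h : z ^ 6 = 1) : Complex.normSq z = 1 := by
  have h2 : ‖z‖ = 1 := by
    have h3 : ‖z‖ ^ 6 = 1 := by rw [← norm_pow, h, norm_one]
    exact (pow_eq_one_iff_of_nonneg (norm_nonneg _) (by norm_num)).1 h3
  rw [Complex.normSq_eq_norm_sq, h2]
  norm_num

/-- the periods -/
theorem periods {L : PeriodPair} {Ω : ℂ} (hC : Cur L Ω)
    (hΩ : ((starRingEnd ℂ) Ω) ^ 6 = Ω ^ 6) {Rp Cp : ℝ}
    (hR : Rp = 2 * ∫ x in {x : ℝ | 0 < cubic (E27 ℤ) x}, 1 / Real.sqrt (cubic (E27 ℤ) x))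
    (hCp : Cp = 2 * (2 * ∫ x : ℂ, 1 / ‖cubic (E27 ℤ) x‖)) :
    0 < Rp ∧ 0 < Cp ∧ (kap L Ω * Ω = Rp ∨ kap L Ω * Ω = -Rp) ∧
      ∃ k : ℤ, k ≠ 0 ∧ (2 * om + 1) * Rp = k * (Complex.I * (Cp / Rp : ℝ)) := by
  have hΔ : (E27 ℤ).Δ < 0 := by
    have : (E27 ℤ).Δ = -27 := by
      simp [E27, WeierstrassCurve.Δ, WeierstrassCurve.b₂, WeierstrassCurve.b₄, WeierstrassCurve.b₆,
        WeierstrassCurve.b₈]
    rw [this]
    norm_num
  have hc4 : (E27 ℤ).c₄ = 0 := by
    simp [E27, WeierstrassCurve.c₄, WeierstrassCurve.b₂, WeierstrassCurve.b₄]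
  have hc6 : (E27 ℤ).c₆ = -216 := by
    simp [E27, WeierstrassCurve.c₆, WeierstrassCurve.b₂, WeierstrassCurve.b₄, WeierstrassCurve.b₆]
  obtain ⟨Op, Om, hOp, hOm, hlat⟩ := Pool.Agent.Y255.LAT.lat L 0 (-1)
    (by rw [hC.g2]; simp) (by rw [hC.g3]; simp) (by norm_num)
  have e1 : L.g₂ = ((E27 ℤ).c₄ : ℂ) / 12 := by rw [hC.g2, hc4]; simp
  have e2 : L.g₃ = ((E27 ℤ).c₆ : ℂ) / 216 := by rw [hC.g3, hc6]; push_cast; norm_num
  have i1 := Per.s_perr (E27 ℤ) hΔ L Op Om hOp hOm e1 e2 hlat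
  have i2 := Per.s_perc (E27 ℤ) hΔ L Op Om hOp hOm e1 e2 hlat
  have hRp : Rp = 2 * Op := by rw [hR, i1]
  have hCpe : Cp = 4 * Op * Om := by rw [hCp, i2]; ring
  have hΩ0 : Ω ≠ 0 := hC.lat.ne
  have hRp0 : (Rp : ℂ) ≠ 0 := by
    have : Rp ≠ 0 := by rw [hRp]; positivity
    exact_mod_cast this
  have hq : Cp / Rp = 2 * Om := by
    rw [hCpe, hRp]
    field_simp
    ring
  -- `κ`
  obtain ⟨u, hu, huz⟩ := six_root (z := kap L Ω / (2 * om + 1)) (by
    rw [div_pow, kap_six hC]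
    have : (2 * om + 1) ^ 6 = -27 := by
      calc (2 * om + 1) ^ 6 = ((2 * om + 1) ^ 2) ^ 3 := by ring
        _ = -27 := by rw [th_sq]; norm_num
    rw [this, div_self (by norm_num)])
  have hk : kap L Ω = u * (2 * om + 1) := by
    rw [← huz, div_mul_cancel₀ _ th_ne]
  have hth : ((2 * omr + 1 : eis) : ℂ) = 2 * om + 1 := by
    have e2 : ((2 : eis) : ℂ) = 2 := rfl
    push_cast
    rw [omr_coe, e2]
  have hkmem : kap L Ω * Ω ∈ L.lattice := by
    refine (hC.lat.mem _).2 ⟨u * (2 * omr + 1), ?_⟩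
    rw [hk]
    have e3 : ((u * (2 * omr + 1) : eis) : ℂ) = (u : ℂ) * ((2 * omr + 1 : eis) : ℂ) := rfl
    rw [e3, hth]
    ring
  have hRmem : (Rp : ℂ) ∈ L.lattice := by
    refine (hlat _).2 ⟨2, 0, by norm_num, ?_⟩
    rw [hRp]
    push_cast
    ring
  obtain ⟨α, hα⟩ := (hC.lat.mem _).1 hRmem
  have hreal := kap_real hC hΩ
  -- the real multiples
  have hk1 : ∃ k : ℤ, kap L Ω * Ω = k * Rp := by
    obtain ⟨a, b, h1, h2⟩ := (hlat _).1 hkmem
    have h3 := Complex.conj_eq_iff_im.1 hreal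
    have h4 : b = 0 := by
      have h5 := congrArg Complex.im h2
      rw [h3] at h5
      simp at h5
      rcases h5 with h | h
      · exact_mod_cast h
      · exact absurd h hOm.ne'
    rw [h4, sub_zero] at h1
    obtain ⟨k, hk⟩ := h1
    refine ⟨k, ?_⟩
    rw [h2, h4, hk, hRp]
    push_cast
    ring
  obtain ⟨k, hk2⟩ := hk1
  have hsq : (k : ℤ) ^ 2 ∣ 3 := by
    have h1 : (u : ℂ) * (2 * om + 1) = k * α := by
      rw [hα, hk] at hk2
      apply mul_right_cancel₀ hΩ0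
      linear_combination hk2
    obtain ⟨n, hn⟩ := norm_int α
    have h2 := congrArg Complex.normSq h1
    have hu6 : (u : ℂ) ^ 6 = 1 := by
      have := congrArg (fun t : eis => (t : ℂ)) (unit_six hu)
      push_cast at this
      exact this
    have h3 : Complex.normSq (k : ℂ) = (k : ℝ) ^ 2 := by
      rw [← Complex.ofReal_intCast, Complex.normSq_ofReal, pow_two]
    rw [map_mul, map_mul, norm_six hu6, th_norm, hn, h3, one_mul] at h2
    exact ⟨n, by exact_mod_cast h2⟩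
  have hk3 : k = 1 ∨ k = -1 := by
    have h1 : k ^ 2 ≤ 3 := Int.le_of_dvd (by norm_num) hsq
    have h2 : k ≠ 0 := by
      rintro rfl
      norm_num at hsq
    have h3 : k ≤ 1 := by nlinarith
    have h4 : -1 ≤ k := by nlinarith
    omega
  refine ⟨by rw [hRp]; positivity, by rw [hCpe]; positivity, ?_, ?_⟩
  · rcases hk3 with h | h
    · left
      rw [hk2, h]
      simp
    · right
      rw [hk2, h]
      simp
  · have hmem : (2 * om + 1) * (Rp : ℂ) ∈ L.lattice := by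
      refine (hC.lat.mem _).2 ⟨(2 * omr + 1) * α, ?_⟩
      rw [hα]
      have e2 : ((2 : eis) : ℂ) = 2 := rfl
      push_cast
      rw [omr_coe, e2]
      ring
    obtain ⟨a, b, h1, h2⟩ := (hlat _).1 hmem
    have h4 : a = 0 := by
      have h5 := congrArg Complex.re h2
      rw [Complex.re_mul_ofReal, th_re, zero_mul] at h5
      simp at h5
      rcases h5 with h | h
      · exact_mod_cast h
      · exact absurd h hOp.ne'
    rw [h4, zero_sub] at h1
    obtain ⟨j, hj⟩ := (dvd_neg.1 h1)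
    refine ⟨j, ?_, ?_⟩
    · rintro rfl
      rw [h4, hj] at h2
      simp only [mul_zero, Int.cast_zero, zero_mul, add_zero] at h2
      exact mul_ne_zero th_ne hRp0 h2
    · rw [h2, h4, hj, hq]
      push_cast
      ring

end Pool.Agent.N883.Q
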