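import Pool.Agent.N883.Q.Tors
import Pool.Agent.TH119.MX.Gal
import Pool.Agent.TH936.CM.Fin

/-!
# Rationality of the value at one
-/

set_option autoImplicit false
set_option linter.unusedSectionVars false

namespace Pool.Agent.N883.Q

open NumberField IsDedekindDomain Filter Topology H667R3

open scoped Pointwise PeriodPair

open Pool.Agent.Y696 Pool.Agent.W192.HK Pool.Agent.TH936.CM Pool.Agent.TH936.PU

open Pool.Agent.W192.CM (nu)

open Pool.Agent.R431.B

section chars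

variable {G : Type} [CommGroup G] [Finite G] {g : ℕ}

lemma one_G (u : G) : (1 : MulChar G ℂ) u = 1 := MulChar.one_apply (toUnits u).isUnit

/-- orthogonality -/
lemma orth [Fintype G] [DecidableEq (MulChar G ℂ)] (ψ χ : MulChar G ℂ) :
    ∑ u : G, (ψ⁻¹ * χ) u = if χ = ψ then (Nat.card G : ℂ) else 0 := by
  split_ifs with h
  · subst h
    rw [inv_mul_cancel]
    simp only [one_G, Finset.sum_const, Finset.card_univ, nsmul_eq_mul,
      mul_one, Nat.card_eq_fintype_card]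
  · refine MulChar.sum_eq_zero_of_ne_one fun h1 => h ?_
    exact (inv_mul_eq_one.1 h1).symm

lemma trace_eig (b : Module.Basis (Fin g) ℂ (Fin g → ℂ)) {A : Matrix (Fin g) (Fin g) ℂ}
    {l : Fin g → ℂ} (h : ∀ i, Eig (b i) A (l i)) : A.trace = ∑ i, l i := by
  have h1 : LinearMap.toMatrix b b (Matrix.toLin' A) = Matrix.diagonal l := by
    ext i j
    rw [LinearMap.toMatrix_apply, Matrix.toLin'_apply, h j, map_smul]
    simp only [Module.Basis.repr_self, Finsupp.smul_apply, Finsupp.single_apply, smul_eq_mul,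
      Matrix.diagonal_apply]
    by_cases hij : i = j
    · subst hij
      simp
    · rw [if_neg (fun h => hij h.symm), if_neg hij, mul_zero]
  have h2 : LinearMap.trace ℂ _ (Matrix.toLin' A) = A.trace := by
    rw [LinearMap.trace_eq_matrix_trace ℂ (Pi.basisFun ℂ (Fin g))]
    congr 1
    exact LinearMap.toMatrix'_toLin' A
  rw [← h2, LinearMap.trace_eq_matrix_trace ℂ b, h1, Matrix.trace_diagonal]

/-- the multiset of the characters is determined by the sums -/
lemma char_multiset [DecidableEq (MulChar G ℂ)] {χ χ' : Fin g → MulChar G ℂ}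
    (h : ∀ u : G, ∑ j, χ j u = ∑ j, χ' j u) :
    (Finset.univ.val.map χ) = (Finset.univ.val.map χ') := by
  classical
  let _ : Fintype G := Fintype.ofFinite G
  have key : ∀ (χ : Fin g → MulChar G ℂ) (ψ : MulChar G ℂ),
      (Nat.card G : ℂ) * ((Finset.univ.val.map χ).count ψ : ℕ) =
        ∑ u : G, ψ⁻¹ u * ∑ j, χ j u := by
    intro χ ψ
    have h1 : ∑ u : G, ψ⁻¹ u * ∑ j, χ j u = ∑ j, ∑ u : G, (ψ⁻¹ * χ j) u := by
      rw [Finset.sum_comm]
      refine Finset.sum_congr rfl fun u _ => ?_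
      rw [Finset.mul_sum]
      rfl
    rw [h1, Finset.sum_congr rfl fun j _ => orth ψ (χ j), Multiset.count_map]
    rw [← Finset.sum_filter, Finset.sum_const, nsmul_eq_mul, mul_comm]
    congr 2
    rw [Finset.card_def, Finset.filter_val]
    congr 1
    exact Multiset.filter_congr fun j _ => eq_comm
  ext ψ
  have h1 := key χ ψ
  have h2 := key χ' ψ
  rw [Finset.sum_congr rfl fun u _ => by rw [h u], ← h2] at h1
  have h0 : (Nat.card G : ℂ) ≠ 0 := by exact_mod_cast Nat.card_pos.ne'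
  exact_mod_cast mul_left_cancel₀ h0 h1

lemma prod_char {χ χ' : Fin g → MulChar G ℂ} (h : ∀ u : G, ∑ j, χ j u = ∑ j, χ' j u)
    (f : MulChar G ℂ → ℂ) : ∏ j, f (χ j) = ∏ j, f (χ' j) := by
  classical
  have h1 := char_multiset h
  have h2 := congrArg (fun s : Multiset (MulChar G ℂ) => (s.map f).prod) h1
  simp only [Multiset.map_map] at h2
  exact h2

end chars

section

variable {K : Type} [Field K] [NumberField K] [IsGalois ℚ K] {ι : eis →+* 𝓞 K} {G : Type}
  [CommGroup G] [Finite G] [MulSemiringAction G (𝓞 K)] {c : eis}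
  {art : (eis ⧸ (sp c : Ideal eis))ˣ →* G} {i : G →* (K ≃ₐ[ℚ] K)} {g : ℕ}
  (ρ : (K ≃ₐ[ℚ] K) →* GL (Fin g) ℤ)

lemma det_unit (A : GL (Fin g) ℤ) : (A : Matrix (Fin g) (Fin g) ℤ).det = 1 ∨
    (A : Matrix (Fin g) (Fin g) ℤ).det = -1 := by
  have h : IsUnit (A : Matrix (Fin g) (Fin g) ℤ).det := by
    rw [← Matrix.isUnit_iff_isUnit_det]
    exact A.isUnit
  exact Int.isUnit_iff.1 h

lemma cM_det (A : GL (Fin g) ℤ) : (cM A).det = ((A : Matrix (Fin g) (Fin g) ℤ).det : ℂ) := by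
  unfold cM
  exact (RingHom.map_det (Int.castRingHom ℂ) _).symm

/-- the determinant on a group of odd order -/
lemma det_odd {H : Type*} [Group H] (f : H →* GL (Fin g) ℤ) (u : H) {N : ℕ} (hN : Odd N)
    (hu : u ^ N = 1) : (f u : Matrix (Fin g) (Fin g) ℤ).det = 1 := by
  rcases det_unit (f u) with h | h
  · exact h
  · exfalso
    have h1 : ((f u : Matrix (Fin g) (Fin g) ℤ).det) ^ N = 1 := by
      rw [← Matrix.det_pow, ← Units.val_pow_eq_pow_val, ← map_pow, hu, map_one]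
      simp
    rw [h, hN.neg_one_pow] at h1
    norm_num at h1

variable {m : ℕ} {b : Module.Basis (Fin g) ℂ (Fin g → ℂ)} {χ : Fin g → MulChar G ℂ}
  {F : Fin g → ℂ → ℂ} {S : Finset Nat.Primes} {E : Nat.Primes → ℂ → ℂ}
  {L : PeriodPair} {Ω : ℂ}

/-- the algebraic part of the product of the values -/
noncomputable def Alg (L : PeriodPair) (Ω : ℂ) (F : Fin g → ℂ → ℂ) : ℂ :=
  ∏ j, ((nu eis : ℂ) * (starRingEnd ℂ) (F j 1) / (kap L Ω * Ω))

theorem alg_fixed (D : DatQ ι G c art) (hc : c = (m : eis)) (hm0 : m ≠ 0)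
    (hodd : Odd (Nat.card G)) (h : Fac ρ i art m b χ F S E) (hC : Cur L Ω) {σ : ℂ ≃+* ℂ}
    (hσ : σ om = om) : σ (Alg L Ω F) = Alg L Ω F := by
  classical
  have hkΩ : kap L Ω * Ω ≠ 0 := mul_ne_zero (kap_ne hC) hC.lat.ne
  have hH := fun ψ : MulChar G ℂ => hecke D.c_ne D.cop3 (η := eta art ψ) (et_eta_unitQ D ψ)
  choose F' hFd' hFs' hFl' using hH
  let Θ : MulChar G ℂ → ℂ := fun ψ => (nu eis : ℂ) * (starRingEnd ℂ) (F' ψ 1) / (kap L Ω * Ω)
  have hΘ : ∀ ψ : MulChar G ℂ, Tendsto (SS (ec (eta art ψ))) (𝓝[>] 0)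
      (𝓝 (kap L Ω * Ω * Θ ψ)) := by
    intro ψ
    have h1 := hFl' ψ L Ω hC.lat
    have e : kap L Ω * Ω * Θ ψ = (nu eis : ℂ) * (starRingEnd ℂ) (F' ψ 1) := by
      exact mul_div_cancel₀ _ hkΩ
    rwa [e]
  have e1 : Alg L Ω F = ∏ j, Θ (χ j) := by
    unfold Alg
    refine Finset.prod_congr rfl fun j _ => ?_
    have h2 := tendsto_nhds_unique (h.lim j L Ω hC.lat) (hFl' (χ j) L Ω hC.lat)
    rw [h2]
  obtain ⟨u, hu⟩ := theta_gal hC hc hm0 D.cop3 hσ
  let sχ : MulChar G ℂ → MulChar G ℂ := fun ψ => ψ.ringHomComp (σ : ℂ →+* ℂ)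
  have hs : ∀ (ψ : MulChar G ℂ) (a : G), sχ ψ a = σ (ψ a) := fun ψ a => rfl
  have key : ∀ ψ : MulChar G ℂ, σ (Θ ψ) = sχ ψ (art u) * Θ (sχ ψ) := by
    intro ψ
    have h2 := hu (eta art ψ) (eta art (sχ ψ)) (fun x => by
      by_cases hx : IsUnit x
      · obtain ⟨y, rfl⟩ := hx
        rw [eta_unit, eta_unit, hs]
      · rw [MulChar.map_nonunit _ hx, MulChar.map_nonunit _ hx, map_zero]) _ _ (hΘ ψ) (hΘ (sχ ψ))
    rw [h2, eta_unit]
  have htr : ∀ a : G, ∑ j, χ j a = ((ρ (i a) : Matrix (Fin g) (Fin g) ℤ).trace : ℂ) := by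
    intro a
    rw [← trace_eig b fun j => h.eig a j]
    unfold cM
    exact (AddMonoidHom.map_trace (Int.castRingHom ℂ) _).symm
  have hsum : ∀ a : G, ∑ j, (fun j => sχ (χ j)) j a = ∑ j, χ j a := by
    intro a
    have h3 : ∑ j, (fun j => sχ (χ j)) j a = σ (∑ j, χ j a) := by
      rw [map_sum]
      rfl
    rw [h3, htr, map_intCast]
  rw [e1, map_prod, Finset.prod_congr rfl fun j _ => key (χ j)]
  have h4 := prod_char hsum (fun ψ => ψ (art u) * Θ ψ)
  have h5 : ∏ j, (sχ (χ j) (art u) * Θ (sχ (χ j))) = ∏ j, (χ j (art u) * Θ (χ j)) := h4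
  rw [h5, Finset.prod_mul_distrib]
  have h6 : ∏ j, χ j (art u) = 1 := by
    rw [← det_eig b fun j => h.eig (art u) j, cM_det]
    have h7 := det_odd (ρ.comp i) (art u) hodd pow_card_eq_one'
    have h8 : (ρ (i (art u)) : Matrix (Fin g) (Fin g) ℤ).det = 1 := h7
    rw [h8]
    simp
  rw [h6, one_mul]

end

end Pool.Agent.N883.Q
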