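import Pool.Agent.N883.Q.Rat

/-!
# Complex conjugation, the period
-/

set_option autoImplicit false
set_option linter.unusedSectionVars false

namespace Pool.Agent.N883.Q

open NumberField IsDedekindDomain Filter Topology H667R3

open scoped Pointwise PeriodPair

open Pool.Agent.Y696 Pool.Agent.W192.HK Pool.Agent.TH936.CM Pool.Agent.TH936.PU

open Pool.Agent.W192.CM (nu)

open Pool.Agent.R431.B

lemma six_root {z : ℂ} (hz : z ^ 6 = 1) : ∃ u : eis, IsUnit u ∧ z = u := by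
  have h2 := om_sq
  have h3 := om_cube
  have h1 : (z ^ 2 - 1) * (z ^ 2 - om ^ 2) * (z ^ 2 - om) = 0 := by
    linear_combination hz + (-z ^ 4 + z ^ 2) * h2 + (z ^ 2 - 1) * h3
  rcases mul_eq_zero.1 h1 with h4 | h4
  · rcases mul_eq_zero.1 h4 with h5 | h5
    · have h6 : (z - 1) * (z + 1) = 0 := by linear_combination h5
      rcases mul_eq_zero.1 h6 with h7 | h7
      · exact ⟨1, isUnit_one, by push_cast; linear_combination h7⟩
      · exact ⟨-1, isUnit_one.neg, by push_cast; linear_combination h7⟩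
    · have h6 : (z - om) * (z + om) = 0 := by linear_combination h5
      rcases mul_eq_zero.1 h6 with h7 | h7
      · exact ⟨omr, omr_unit, by rw [omr_coe]; linear_combination h7⟩
      · exact ⟨-omr, omr_unit.neg, by push_cast; rw [omr_coe]; linear_combination h7⟩
  · have h6 : (z - om ^ 2) * (z + om ^ 2) = 0 := by linear_combination h4 - om * h3
    rcases mul_eq_zero.1 h6 with h7 | h7
    · exact ⟨omr ^ 2, omr_unit.pow 2, by push_cast; rw [omr_coe]; linear_combination h7⟩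
    · exact ⟨-omr ^ 2, (omr_unit.pow 2).neg, by push_cast; rw [omr_coe]; linear_combination h7⟩

section conj

variable {L : PeriodPair} {Ω : ℂ}

/-- complex conjugation on a lattice -/
noncomputable def cjLat (hL : ∀ z, z ∈ L.lattice → (starRingEnd ℂ) z ∈ L.lattice) :
    L.lattice ≃ L.lattice where
  toFun l := ⟨(starRingEnd ℂ) l, hL _ l.2⟩
  invFun l := ⟨(starRingEnd ℂ) l, hL _ l.2⟩
  left_inv l := by ext; simp
  right_inv l := by ext; simp

lemma wp_conj (hL : ∀ z, z ∈ L.lattice → (starRingEnd ℂ) z ∈ L.lattice) (z : ℂ) :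
    ℘[L] ((starRingEnd ℂ) z) = (starRingEnd ℂ) (℘[L] z) := by
  unfold PeriodPair.weierstrassP
  rw [Complex.conj_tsum, ← (cjLat hL).tsum_eq]
  refine tsum_congr fun l => ?_
  have e : (((cjLat hL) l : L.lattice) : ℂ) = (starRingEnd ℂ) (l : ℂ) := rfl
  rw [e]
  simp only [map_sub, map_div₀, map_one, map_pow]

lemma dwp_conj (hL : ∀ z, z ∈ L.lattice → (starRingEnd ℂ) z ∈ L.lattice) (z : ℂ) :
    ℘'[L] ((starRingEnd ℂ) z) = (starRingEnd ℂ) (℘'[L] z) := by
  unfold PeriodPair.derivWeierstrassP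
  rw [map_neg, Complex.conj_tsum, ← (cjLat hL).tsum_eq]
  congr 1
  refine tsum_congr fun l => ?_
  have e : (((cjLat hL) l : L.lattice) : ℂ) = (starRingEnd ℂ) (l : ℂ) := rfl
  rw [e]
  simp only [map_sub, map_div₀, map_pow, map_ofNat]

lemma conj_om' (hC : Cur L Ω) (hΩ : ((starRingEnd ℂ) Ω) ^ 6 = Ω ^ 6) :
    ∃ u : eis, IsUnit u ∧ (starRingEnd ℂ) Ω = u * Ω := by
  have h0 : Ω ≠ 0 := hC.lat.ne
  obtain ⟨u, hu, h⟩ := six_root (z := (starRingEnd ℂ) Ω / Ω) (by
    rw [div_pow, hΩ, div_self (pow_ne_zero 6 h0)])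
  exact ⟨u, hu, by rw [← h, div_mul_cancel₀ _ h0]⟩

lemma lat_conj (hC : Cur L Ω) (hΩ : ((starRingEnd ℂ) Ω) ^ 6 = Ω ^ 6) (z : ℂ)
    (hz : z ∈ L.lattice) : (starRingEnd ℂ) z ∈ L.lattice := by
  obtain ⟨u, hu, h⟩ := conj_om' hC hΩ
  obtain ⟨r, hr⟩ := (hC.lat.mem z).1 hz
  refine (hC.lat.mem _).2 ⟨u * cj r, ?_⟩
  rw [hr, map_mul, h]
  push_cast
  rw [cj_coe]
  ring

/-- `κ Ω` is real -/
theorem kap_real (hC : Cur L Ω) (hΩ : ((starRingEnd ℂ) Ω) ^ 6 = Ω ^ 6) :
    (starRingEnd ℂ) (kap L Ω * Ω) = kap L Ω * Ω := by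
  obtain ⟨u, hu, h⟩ := conj_om' hC hΩ
  have hu0 : (u : ℂ) ≠ 0 := coe_ne hu.ne_zero
  have hu6 : (u : ℂ) ^ 6 = 1 := by
    have := congrArg (fun t : eis => (t : ℂ)) (unit_six hu)
    push_cast at this
    exact this
  have e1 : (starRingEnd ℂ) (Ω / 3) = u * (Ω / 3) := by
    rw [map_div₀, map_ofNat, h]
    ring
  have e2 := wp_conj (lat_conj hC hΩ) (Ω / 3)
  have e3 := dwp_conj (lat_conj hC hΩ) (Ω / 3)
  rw [e1, wp_unit hC.lat hu] at e2
  rw [e1, dwp_unit hC.lat hu] at e3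
  unfold kap
  rw [map_mul, map_mul, map_pow, ← e2, ← e3, h]
  have h7 : ((u : ℂ) ^ 3)⁻¹ * (((u : ℂ) ^ 2)⁻¹) ^ 2 * u = 1 := by
    field_simp
    linear_combination -hu6
  linear_combination (℘'[L] (Ω / 3) * ℘[L] (Ω / 3) ^ 2 * Ω) * h7

end conj

section rat

/-- the numbers fixed by all the automorphisms -/
lemma rat_of_fixed {z : ℂ} (h : ∀ σ : ℂ ≃+* ℂ, σ z = z) : ∃ r : ℚ, z = r := by
  by_contra hcon
  have hz : z ∉ (algebraMap ℚ ℂ).fieldRange := by
    rintro ⟨r, hr⟩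
    exact hcon ⟨r, hr.symm⟩
  obtain ⟨σ, -, hσ⟩ := Pool.Agent.TH119.MX.exists_move hz
  exact hσ (h σ)

lemma rat_of_om {z : ℂ} (h1 : (starRingEnd ℂ) z = z) (h : ∀ σ : ℂ ≃+* ℂ, σ om = om → σ z = z) :
    ∃ r : ℚ, z = r := by
  apply rat_of_fixed
  intro σ
  have h2 : (σ om) ^ 2 + σ om + 1 = 0 := by
    have := congrArg σ om_sq
    rwa [map_add, map_add, map_pow, map_one, map_zero] at this
  have h3 : (σ om - om) * (σ om - om ^ 2) = 0 := by
    linear_combination h2 + (1 - σ om - 1) * om_sq + om_cube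
  rcases mul_eq_zero.1 h3 with h4 | h4
  · exact h σ (sub_eq_zero.1 h4)
  · have hco : (starRingEnd ℂ) om = om ^ 2 := by
      have := cj_coe omr
      have h5 := om_sq
      have h6 : om.im ≠ 0 := om_im.ne'
      have h7 : ((starRingEnd ℂ) om) ^ 2 + (starRingEnd ℂ) om + 1 = 0 := by
        have := congrArg (starRingEnd ℂ) om_sq
        rwa [map_add, map_add, map_pow, map_one, map_zero] at this
      have h8 : ((starRingEnd ℂ) om - om) * ((starRingEnd ℂ) om - om ^ 2) = 0 := by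
        linear_combination h7 + (1 - (starRingEnd ℂ) om - 1) * om_sq + om_cube
      rcases mul_eq_zero.1 h8 with h9 | h9
      · exfalso
        apply h6
        exact Complex.conj_eq_iff_im.1 (sub_eq_zero.1 h9)
      · exact sub_eq_zero.1 h9
    let τ : ℂ ≃+* ℂ := (starRingAut : RingAut ℂ).trans σ
    have hτ : ∀ x, τ x = σ ((starRingEnd ℂ) x) := fun x => rfl
    have h5 := h τ (by
      rw [hτ, hco, map_pow, sub_eq_zero.1 h4]
      linear_combination om * om_cube)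
    rw [hτ, h1] at h5
    exact h5

end rat

section euler

variable {K : Type} [Field K] [NumberField K] {g : ℕ} (ρ : (K ≃ₐ[ℚ] K) →* GL (Fin g) ℤ)

lemma map_smul' (f : ℂ →+* ℂ) (a : ℂ) (M : Matrix (Fin g) (Fin g) ℂ) :
    f.mapMatrix (a • M) = f a • f.mapMatrix M := by
  ext i j
  simp

lemma map_frobM (f : ℂ →+* ℂ) (v : HeightOneSpectrum (𝓞 K)) :
    f.mapMatrix (frobM ρ v) = frobM ρ v := by
  classical
  have : Fintype (FrobSet v) := Fintype.ofFinite _
  unfold frobM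
  rw [finsum_eq_sum_of_fintype, map_smul', map_inv₀, map_natCast, map_sum]
  congr 1
  refine Finset.sum_congr rfl fun σ _ => ?_
  ext i j
  simp

/-- the Euler factor and ring homomorphisms -/
lemma map_euler (f : ℂ →+* ℂ) (W : WeierstrassCurve ℤ) (v : HeightOneSpectrum (𝓞 K)) {s s' : ℂ}
    {p : ℕ} (h1 : f ((p : ℂ) ^ (-s)) = (p : ℂ) ^ (-s'))
    (h2 : f ((p : ℂ) ^ (1 - 2 * s)) = (p : ℂ) ^ (1 - 2 * s')) :
    f (euler ρ W v s p) = euler ρ W v s' p := by
  unfold euler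
  rw [map_inv₀, RingHom.map_det, map_add, map_sub, map_one, map_smul', map_smul', map_pow,
    map_frobM, map_mul, h1, map_intCast]
  congr 4
  split_ifs
  · exact map_zero f
  · exact h2

lemma conj_euler (W : WeierstrassCurve ℤ) (v : HeightOneSpectrum (𝓞 K)) (s : ℂ) (p : ℕ) :
    (starRingEnd ℂ) (euler ρ W v s p) = euler ρ W v ((starRingEnd ℂ) s) p := by
  apply map_euler
  · rw [conj_nat_cpow, map_neg]
  · rw [conj_nat_cpow, map_sub, map_one, map_mul, map_ofNat]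

lemma rat_euler (W : WeierstrassCurve ℤ) (v : HeightOneSpectrum (𝓞 K)) (p : ℕ) :
    ∃ r : ℚ, euler ρ W v 1 p = r := by
  apply rat_of_fixed
  intro σ
  have e1 : (1 - 2 * (1 : ℂ)) = -1 := by ring
  refine map_euler ρ (σ : ℂ →+* ℂ) W v ?_ ?_
  · rw [Complex.cpow_neg_one, map_inv₀, map_natCast]
  · rw [e1, Complex.cpow_neg_one, map_inv₀, map_natCast]

end euler

end Pool.Agent.N883.Q
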