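import Pool.Agent.N883.Q.Main

/-!
# The structure of the `L`-function of `E ⊗ M`
-/

set_option autoImplicit false
set_option linter.unusedSectionVars false

namespace Pool.Agent.N883.Q

open NumberField IsDedekindDomain Filter Topology

open scoped Pointwise

open Pool.Agent.Y696 Pool.Agent.W192.HK Pool.Agent.TH936.CM Pool.Agent.TH936.PU

open Pool.Agent.W192.CM (nu)

open Pool.Agent.R431.B

section

variable {K : Type} [Field K] [NumberField K] [IsGalois ℚ K] {ι : eis →+* 𝓞 K} {G : Type}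
  [CommGroup G] [Finite G] [MulSemiringAction G (𝓞 K)] {c : eis}
  {art : (eis ⧸ (sp c : Ideal eis))ˣ →* G} {i : G →* (K ≃ₐ[ℚ] K)} {g : ℕ}
  (ρ : (K ≃ₐ[ℚ] K) →* GL (Fin g) ℤ)

/-- the factors of the `L`-function -/
structure Fac (i : G →* (K ≃ₐ[ℚ] K)) (art : (eis ⧸ (sp c : Ideal eis))ˣ →* G) (m : ℕ)
    (b : Module.Basis (Fin g) ℂ (Fin g → ℂ)) (χ : Fin g → MulChar G ℂ)
    (F : Fin g → ℂ → ℂ) (S : Finset Nat.Primes) (E : Nat.Primes → ℂ → ℂ) : Prop where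
  eig : ∀ (u : G) j, Eig (b j) (cM (ρ (i u))) (χ j u)
  diffF : ∀ j, Differentiable ℂ (F j)
  lim : ∀ j (Λ : PeriodPair) (Ω : ℂ), IsLat Λ eis Ω →
    Tendsto (SS (ec (eta art (χ j)))) (𝓝[>] 0) (𝓝 ((nu eis : ℂ) * (starRingEnd ℂ) (F j 1)))
  memS : ∀ p : Nat.Primes, p ∈ S ↔ (p : ℕ) ∣ m
  diffE : ∀ p ∈ S, Differentiable ℂ (E p)
  valE : ∀ p ∈ S, ∀ s, ∀ v : HeightOneSpectrum (𝓞 K), ((p : ℕ) : 𝓞 K) ∈ v.asIdeal →
    euler ρ (E27 ℤ) v s p = (E p s)⁻¹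
  unitE : ∀ p ∈ S, ∀ (q n : ℕ), q.Prime → Nat.card G = q ^ n → (p : ℕ) ≠ q →
    ¬ q ∣ pts (E27 ℤ) (ZMod p) + 1 → ∀ (Γ : Type) [LinearOrderedCommGroupWithZero Γ]
    (w : Valuation ℂ Γ), w (q : ℂ) < 1 → w (E p 1) = 1
  prod : ∀ V : Nat.Primes → HeightOneSpectrum (𝓞 K),
    (∀ p : Nat.Primes, ((p : ℕ) : 𝓞 K) ∈ (V p).asIdeal) → ∀ s : ℂ, 3 / 2 < s.re →
    HasProd (fun p : Nat.Primes => if p ∈ S then 1 else euler ρ (E27 ℤ) (V p) s p)
      (∏ j, F j s)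

lemma Fac.prod' {m : ℕ} {b : Module.Basis (Fin g) ℂ (Fin g → ℂ)} {χ : Fin g → MulChar G ℂ}
    {F : Fin g → ℂ → ℂ} {S : Finset Nat.Primes} {E : Nat.Primes → ℂ → ℂ}
    (h : Fac ρ i art m b χ F S E) (V : Nat.Primes → HeightOneSpectrum (𝓞 K))
    (hV : ∀ p : Nat.Primes, ((p : ℕ) : 𝓞 K) ∈ (V p).asIdeal) (s : ℂ) (hs : 3 / 2 < s.re) :
    HasProd (fun p : Nat.Primes => euler ρ (E27 ℤ) (V p) s p)
      ((∏ p ∈ S, (E p s)⁻¹) * ∏ j, F j s) := by
  classical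
  have h4 : HasProd (fun p : Nat.Primes => if p ∈ S then (E p s)⁻¹ else 1)
      (∏ p ∈ S, (E p s)⁻¹) := by
    have h6 := hasProd_prod_of_ne_finset_one (L := .unconditional _) (s := S)
      (f := fun p : Nat.Primes => if p ∈ S then (E p s)⁻¹ else 1)
      (fun p hp => if_neg hp)
    rw [Finset.prod_congr rfl (fun p hp => if_pos hp)] at h6
    exact h6
  refine (h4.mul (h.prod V hV s hs)).congr_fun fun p => ?_
  by_cases hp : p ∈ S
  · rw [if_pos hp, if_pos hp, mul_one, ← h.valE p hp s (V p) (hV p)]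
  · rw [if_neg hp, if_neg hp, one_mul]

theorem exists_fac (D : DatQ ι G c art) (hFD : FD i) {m : ℕ} (hc : c = (m : eis)) (hm0 : m ≠ 0)
    (hm3 : ∀ p : ℕ, p.Prime → p ∣ m → p ≠ 3) :
    ∃ (b : Module.Basis (Fin g) ℂ (Fin g → ℂ)) (χ : Fin g → MulChar G ℂ) (F : Fin g → ℂ → ℂ)
      (S : Finset Nat.Primes) (E : Nat.Primes → ℂ → ℂ), Fac ρ i art m b χ F S E := by
  classical
  obtain ⟨b, χ, hb0⟩ := exists_eig (ρ.comp i)
  have hb : ∀ (u : G) j, Eig (b j) (cM (ρ (i u))) (χ j u) := hb0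
  have hH := fun j : Fin g => hecke D.c_ne D.cop3 (η := eta art (χ j)) (et_eta_unitQ D (χ j))
  choose F hFd hFs hFl using hH
  have hSfin : {p : Nat.Primes | (p : ℕ) ∣ m}.Finite := by
    have h1 : {q : ℕ | q ∣ m}.Finite := (Nat.divisors m).finite_toSet.subset fun q hq =>
      Finset.mem_coe.2 (Nat.mem_divisors.2 ⟨hq, hm0⟩)
    exact Set.Finite.preimage (f := fun p : Nat.Primes => (p : ℕ))
      (Set.injOn_of_injective (fun a b h => Subtype.ext h)) h1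
  let S : Finset Nat.Primes := hSfin.toFinset
  have hS : ∀ p : Nat.Primes, p ∈ S ↔ (p : ℕ) ∣ m := fun p => by
    rw [Set.Finite.mem_toFinset]
    exact Iff.rfl
  have hroot : ∀ (j : Fin g) (τ : G) (q n : ℕ), q.Prime → Nat.card G = q ^ n → ∀ (Γ : Type)
      [LinearOrderedCommGroupWithZero Γ] (w : Valuation ℂ Γ), w (q : ℂ) < 1 →
      w (χ j τ - 1) < 1 := by
    intro j τ q n hq hG Γ _ w hw
    refine v_root_q hq hw (k := n) ?_
    rw [← map_pow, ← hG, pow_card_eq_one', map_one]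
  have hE : ∀ p : Nat.Primes, ∃ E : ℂ → ℂ, (p : ℕ) ∣ m → Differentiable ℂ E ∧
      (∀ s, ∀ v : HeightOneSpectrum (𝓞 K), ((p : ℕ) : 𝓞 K) ∈ v.asIdeal →
        euler ρ (E27 ℤ) v s p = (E s)⁻¹) ∧
      (∀ (q n : ℕ), q.Prime → Nat.card G = q ^ n → (p : ℕ) ≠ q →
        ¬ q ∣ pts (E27 ℤ) (ZMod p) + 1 → ∀ (Γ : Type) [LinearOrderedCommGroupWithZero Γ]
        (w : Valuation ℂ Γ), w (q : ℂ) < 1 → w (E 1) = 1) := by
    intro p
    by_cases hpm : (p : ℕ) ∣ m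
    · have hp3 := hm3 p p.2 hpm
      have h5 : (p : ℕ) % 3 < 3 := Nat.mod_lt _ (by norm_num)
      obtain ⟨v0, hv0⟩ := exists_place (K := K) p.2
      rcases (show (p : ℕ) % 3 = 0 ∨ (p : ℕ) % 3 = 1 ∨ (p : ℕ) % 3 = 2 by omega) with h | h | h
      · exact absurd ((Nat.prime_dvd_prime_iff_eq Nat.prime_three p.2).1
          (Nat.dvd_of_mod_eq_zero h)).symm hp3
      · obtain ⟨l, h1, h2⟩ := frob_avg ρ hFD hb p.2 hv0 h
        refine ⟨EF l p, fun _ => ⟨EF_diff l p.2, fun s v hv => ?_, ?_⟩⟩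
        · rw [euler_place ρ p.2 hv0 hv, euler_EF ρ p.2 hp3 h1]
        · intro q n hq hG hpq hpts Γ _ w hw
          refine v_EFQ hq hw p.2 hpq h hpts (fun j => ?_)
            (P := bel ι v0) ((mem_bel_nat v0 p).2 hv0)
          rcases h2 j with h3 | ⟨τ, h3⟩
          · exact Or.inl h3
          · right
            rw [h3]
            exact hroot j τ q n hq hG Γ w hw
      · obtain ⟨l, h1, h2⟩ := frob_avg2 ρ hFD hb p.2 hv0 h
        refine ⟨EF2 l p, fun _ => ⟨EF2_diff l p.2, fun s v hv => ?_, ?_⟩⟩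
        · rw [euler_place ρ p.2 hv0 hv, euler_EF2 ρ p.2 h h1]
        · intro q n hq hG hpq hpts Γ _ w hw
          refine v_EF2 hq hw p.2 hpq h hpts (fun j => ?_)
          rcases h2 j with h3 | ⟨τ, h3⟩
          · exact Or.inl h3
          · right
            rw [h3]
            exact hroot j τ q n hq hG Γ w hw
    · exact ⟨fun _ => 0, fun h' => absurd h' hpm⟩
  choose E hE' using hE
  refine ⟨b, χ, F, S, E, ⟨hb, hFd, hFl, hS, fun p hp => (hE' p ((hS p).1 hp)).1,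
    fun p hp => (hE' p ((hS p).1 hp)).2.1, fun p hp => (hE' p ((hS p).1 hp)).2.2, ?_⟩⟩
  intro V hV s hs
  have h1 : HasProd (fun P : HeightOneSpectrum eis => ∏ j, loc (eta art (χ j)) P s)
      (∏ j, F j s) := by
    apply hasProd_prod
    intro j _
    exact hp_eta (et_eta_unitQ D (χ j)) (hFs j s hs)
  have h2 := hasProd_fib h1
  refine h2.congr_fun fun p => ?_
  by_cases hp : p ∈ S
  · have hpm := (hS p).1 hp
    rw [if_pos hp, fib_c hc hpm]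
  · rw [if_neg hp]
    have hpm : ¬ (p : ℕ) ∣ m := fun h => hp ((hS p).2 h)
    have hcv : ι c ∉ (V p).asIdeal := by
      rw [hc, map_natCast]
      exact not_mem_of_coprime ((Nat.Prime.coprime_iff_not_dvd p.2).2 hpm) (hV p)
    have h5 : (p : ℕ) % 3 < 3 := Nat.mod_lt _ (by norm_num)
    rcases (show (p : ℕ) % 3 = 0 ∨ (p : ℕ) % 3 = 1 ∨ (p : ℕ) % 3 = 2 by omega) with h | h | h
    · have h3 : (p : ℕ) = 3 := ((Nat.prime_dvd_prime_iff_eq Nat.prime_three p.2).1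
        (Nat.dvd_of_mod_eq_zero h)).symm
      rw [h3]
      exact (factor_three ρ (V p) s).symm
    · exact (factor_mod1Q ρ D hFD hc hb p.2 (hV p) h hcv s).symm
    · exact (factor_mod2Q ρ D hFD hb p.2 (hV p) h hcv s).symm

/-- the unit theorem -/
theorem unit_val (D : DatQ ι G c art) {m : ℕ} (hc : c = (m : eis)) (hm0 : m ≠ 0)
    {b : Module.Basis (Fin g) ℂ (Fin g → ℂ)} {χ : Fin g → MulChar G ℂ}
    {F : Fin g → ℂ → ℂ} {S : Finset Nat.Primes} {E : Nat.Primes → ℂ → ℂ}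
    (h : Fac ρ i art m b χ F S E) {q n : ℕ} (hq : q.Prime) (h5 : 5 ≤ q)
    (hG : Nat.card G = q ^ n)
    (hm : ∀ p : ℕ, p.Prime → p ∣ m → p ≠ 3 ∧ p ≠ q ∧ ¬ q ∣ pts (E27 ℤ) (ZMod p) + 1)
    {Λ : PeriodPair} {Ω : ℂ} (hC : Cur Λ Ω) (hΩ : ((starRingEnd ℂ) Ω) ^ 6 = Ω ^ 6)
    {Γ : Type} [LinearOrderedCommGroupWithZero Γ] (w : Valuation ℂ Γ) (hw : w (q : ℂ) < 1) :
    (∀ p ∈ S, w (E p 1) = 1) ∧ (∀ j, w (F j 1) = w Ω) ∧
      w ((∏ p ∈ S, (E p 1)⁻¹) * ∏ j, F j 1) = w Ω ^ g := by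
  have h1 : ∀ p ∈ S, w (E p 1) = 1 := by
    intro p hp
    obtain ⟨-, k2, k3⟩ := hm p p.2 ((h.memS p).1 hp)
    exact h.unitE p hp q n hq hG k2 k3 Γ w hw
  have hqm : ¬ q ∣ m := fun hd => (hm q hq hd).2.1 rfl
  have hcq : ∀ (Γ : Type) [LinearOrderedCommGroupWithZero Γ] (w : Valuation ℂ Γ),
      w (q : ℂ) < 1 → Cp w c := by
    intro Γ _ w hw
    exact ⟨m, v_nat_prime hq hw hqm, by
      rw [hc]
      exact Ideal.mem_span_singleton_self _⟩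
  have h2 : ∀ j, w (F j 1) = w Ω := by
    intro j
    have h3 := v_FQ D hq h5 hG (hcq Γ (vc w) (vc_q hw)) (fun P hP => by
      rw [hc] at hP
      exact v_psi_c hq (vc_q hw) hm0 hm hP) (χ j) hC (vc_q hw) (h.lim j Λ Ω hC.lat)
    rw [vc_apply, map_div₀, Complex.conj_conj, map_div₀] at h3
    have h4 : w ((starRingEnd ℂ) Ω) = w Ω := v_six_eq hΩ
    rw [h4] at h3
    have h5 : w Ω ≠ 0 := (Valuation.ne_zero_iff _).2 hC.lat.ne
    exact (div_eq_one_iff_eq h5).1 h3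
  refine ⟨h1, h2, ?_⟩
  rw [map_mul, map_prod, map_prod, Finset.prod_congr rfl fun j _ => h2 j, Finset.prod_const,
    Finset.card_univ, Fintype.card_fin, Finset.prod_eq_one fun p hp => by
      rw [map_inv₀, h1 p hp, inv_one], one_mul]

end

end Pool.Agent.N883.Q
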