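import Pool.Agent.N883.Q.Struct
import Pool.Agent.TH936.CM.Act

/-!
# The automorphisms of the complex numbers and the values of the Hecke `L`-functions
-/

set_option autoImplicit false
set_option linter.unusedSectionVars false

namespace Pool.Agent.N883.Q

open NumberField IsDedekindDomain Filter Topology H667R3

open scoped Pointwise PeriodPair

open Pool.Agent.Y696 Pool.Agent.W192.HK Pool.Agent.TH936.CM Pool.Agent.TH936.PU

open Pool.Agent.W192.CM (nu)

variable {L : PeriodPair} {Ω : ℂ} {σ : ℂ ≃+* ℂ}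

lemma sig_eis (hσ : σ om = om) (r : eis) : σ (r : ℂ) = r := by
  obtain ⟨x, y, h⟩ := r.2
  rw [h, map_add, map_mul, map_intCast, map_intCast, hσ]

lemma rl_om (hC : Cur L Ω) (hσ : σ om = om) {z z' : ℂ} (h : Rl L σ z z') :
    Rl L σ (om * z) (om * z') := by
  have e : ∀ w : ℂ, om * w ∈ L.lattice ↔ w ∈ L.lattice := fun w => by
    have := lat_unit hC.lat omr_unit w
    rwa [omr_coe] at this
  have e1 : ∀ w : ℂ, ℘[L] (om * w) = (om ^ 2)⁻¹ * ℘[L] w := fun w => by
    have := wp_unit hC.lat omr_unit w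
    rwa [omr_coe] at this
  have e2 : ∀ w : ℂ, ℘'[L] (om * w) = (om ^ 3)⁻¹ * ℘'[L] w := fun w => by
    have := dwp_unit hC.lat omr_unit w
    rwa [omr_coe] at this
  rcases h with h | h
  · exact Or.inl ⟨(e z).2 h.1, (e z').2 h.2⟩
  · refine Or.inr ⟨fun hc => h.1 ((e z).1 hc), fun hc => h.2.1 ((e z').1 hc), ?_, ?_⟩
    · rw [e1, e1, map_mul, map_inv₀, map_pow, hσ, h.2.2.1]
    · rw [e2, e2, map_mul, map_inv₀, map_pow, hσ, h.2.2.2]

lemma sig_g2 (hC : Cur L Ω) : σ L.g₂ = L.g₂ := by rw [hC.g2, map_zero]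

lemma sig_g3 (hC : Cur L Ω) : σ L.g₃ = L.g₃ := by rw [hC.g3, map_neg, map_one]

/-- the automorphisms that fix the cube roots of unity are linear -/
lemma rl_lin (hC : Cur L Ω) (hσ : σ om = om) (z z' : ℂ) (h : Rl L σ z z') (r : eis) :
    Rl L σ (r * z) (r * z') := by
  obtain ⟨x, y, hr⟩ := r.2
  have h4 := (h.int_mul (sig_g2 hC) (sig_g3 hC) x).add (sig_g2 hC) (sig_g3 hC)
    ((rl_om hC hσ h).int_mul (sig_g2 hC) (sig_g3 hC) y)
  rw [hr]
  have e5 : ∀ w : ℂ, ((x : ℂ) + y * om) * w = x * w + y * (om * w) := fun w => by ring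
  rw [e5, e5]
  exact h4

/-- `1 + ℘³` is not zero at the points of order prime to three -/
lemma one_add_ne (hC : Cur L Ω) {a b : eis} (hb : b ≠ 0) (hb3 : IsCoprime b 3)
    (ha : a ∉ (sp b : Ideal eis)) : 1 + ℘[L] (Ω * a / b) ^ 3 ≠ 0 := by
  intro h0
  have hw : Ω * a / b ∉ L.lattice := by rwa [hC.div_iff hb]
  have hx := hC.x0
  have key : ∀ u : eis, IsUnit u → ℘[L] (Ω * a / b) ≠ ℘[L] (u * (Ω / 3)) := by
    intro u hu h1
    have hu3 : (u : ℂ) * (Ω / 3) ∉ L.lattice := by
      rw [lat_unit hC.lat hu]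
      exact hC.third
    have hn := cop_notMem hC.lat three_ne hb hb3.symm (z := u) ha
    have e : Ω * (u : ℂ) / ((3 : eis) : ℂ) = (u : ℂ) * (Ω / 3) := by
      have : ((3 : eis) : ℂ) = 3 := rfl
      rw [this]
      ring
    rw [e] at hn
    rcases (wp_eq_iff L hw hu3).1 h1 with h2 | h2
    · apply hn.1
      rwa [add_comm]
    · apply hn.2
      have := neg_mem h2
      rwa [neg_sub] at this
  have k1 := key 1 isUnit_one
  have k2 := key omr omr_unit
  have k3 := key (omr ^ 2) (omr_unit.pow 2)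
  rw [wp_unit hC.lat isUnit_one] at k1
  rw [wp_unit hC.lat omr_unit] at k2
  rw [wp_unit hC.lat (omr_unit.pow 2)] at k3
  set x := ℘[L] (Ω / 3)
  set X := ℘[L] (Ω * a / b)
  have hs := om_sq
  have h3' := om_cube
  have i1 : (om ^ 2)⁻¹ = om := by
    have : om * om ^ 2 = 1 := by linear_combination h3'
    exact (eq_inv_of_mul_eq_one_left this).symm
  have i2 : ((om ^ 2) ^ 2)⁻¹ = om ^ 2 := by
    have : om ^ 2 * (om ^ 2) ^ 2 = 1 := by linear_combination (om ^ 3 + 1) * h3'
    exact (eq_inv_of_mul_eq_one_left this).symm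
  push_cast at k1 k2 k3
  rw [omr_coe, i1] at k2
  rw [omr_coe, i2] at k3
  have e : -((x - X) * (om * x - X) * (om ^ 2 * x - X)) = 0 := by
    rw [← h0]
    linear_combination -((om ^ 3) * hx + (X ^ 2 * x - x ^ 2 * X * om) * hs - h3')
  have h5 := neg_eq_zero.1 e
  rcases mul_eq_zero.1 h5 with h6 | h6
  · rcases mul_eq_zero.1 h6 with h7 | h7
    · apply k1
      rw [one_pow, inv_one, one_mul]
      exact (sub_eq_zero.1 h7).symm
    · exact k2 (sub_eq_zero.1 h7).symm
  · exact k3 (sub_eq_zero.1 h6).symm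

/-- the algebraic part of the period -/
noncomputable def kap (L : PeriodPair) (Ω : ℂ) : ℂ := ℘'[L] (Ω / 3) * ℘[L] (Ω / 3) ^ 2

lemma kap_six (hC : Cur L Ω) : kap L Ω ^ 6 = -27 := by
  unfold kap
  have h1 := hC.x0
  have h2 := hC.y0
  calc (℘'[L] (Ω / 3) * ℘[L] (Ω / 3) ^ 2) ^ 6 = (℘'[L] (Ω / 3) ^ 2) ^ 3 * (℘[L] (Ω / 3) ^ 3) ^ 4 := by
        ring
    _ = -27 := by rw [h1, h2]; norm_num

lemma kap_ne (hC : Cur L Ω) : kap L Ω ≠ 0 := by
  intro h
  have := kap_six hC
  rw [h] at this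
  norm_num at this

lemma nrm_mc {M : Type*} [CommMonoid M] [Finite M] (η : MulChar M ℂ) {x : M} (hx : IsUnit x) :
    η x * (starRingEnd ℂ) (η x) = 1 := by
  obtain ⟨u, rfl⟩ := hx
  have h1 : η (u : M) ^ Nat.card Mˣ = 1 := by
    rw [← map_pow, ← Units.val_pow_eq_pow_val, pow_card_eq_one', Units.val_one, map_one]
  have h2 : ‖η (u : M)‖ = 1 := by
    have h3 : ‖η (u : M)‖ ^ Nat.card Mˣ = 1 := by rw [← norm_pow, h1, norm_one]
    exact (pow_eq_one_iff_of_nonneg (norm_nonneg _) Nat.card_pos.ne').1 h3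
  rw [Complex.mul_conj, Complex.normSq_eq_norm_sq, h2]
  norm_num

lemma sig_conj {M : Type*} [CommMonoid M] [Finite M] {η η' : MulChar M ℂ}
    (h : ∀ x, η' x = σ (η x)) (x : M) :
    σ ((starRingEnd ℂ) (η x)) = (starRingEnd ℂ) (η' x) := by
  by_cases hx : IsUnit x
  · have h1 := nrm_mc η hx
    have h2 := nrm_mc η' hx
    have h0 : η' x ≠ 0 := left_ne_zero_of_mul_eq_one h2
    apply mul_left_cancel₀ h0
    rw [h2, h x, ← map_mul, h1, map_one]
  · rw [MulChar.map_nonunit _ hx, MulChar.map_nonunit _ hx, map_zero, map_zero]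

section form

variable {c : eis}

/-- the formula for the trivial character -/
lemma form_one (hC : Cur L Ω) (hc : c ≠ 0) {l : ℂ}
    (hl : Tendsto (SS (ec (1 : MulChar (eis ⧸ (sp c : Ideal eis)) ℂ))) (𝓝[>] 0) (𝓝 l)) :
    l = kap L Ω * Ω * (2 / 3 * ∏ P ∈ Sc hc, (1 - ee psi (gP P) / (gP P : ℂ))) := by
  classical
  have : Finite (eis ⧸ (sp 3 : Ideal eis)) := finite_q three_ne
  have : Fintype (eis ⧸ (sp 3 : Ideal eis)) := Fintype.ofFinite _
  have hL := hC.lat
  obtain ⟨w, hw⟩ := WW_lim hL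
  have hwv := hC.w_val hw
  have c3 : ((3 : eis) : ℂ) = 3 := rfl
  have hcm : CM (ee psi) := ⟨eo.mul, eo.bd⟩
  have l1 := lim_rmv hL hcm gP gP_span (psi_lim hL hw) (Sc hc)
  have e1 : rmv (Sc hc) (ee psi) = ec (1 : MulChar (eis ⧸ (sp c : Ideal eis)) ℂ) := by
    funext α
    unfold rmv ec
    by_cases h : ∃ P ∈ Sc hc, α ∈ P.asIdeal
    · rw [if_pos h]
      obtain ⟨P, hP, hPα⟩ := h
      have h2 : et (1 : MulChar (eis ⧸ (sp c : Ideal eis)) ℂ) α = 0 := by
        rw [et_zero_iff, cop_iff hc]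
        exact fun h3 => h3 P hP hPα
      rw [h2, map_zero, mul_zero]
    · rw [if_neg h]
      have h2 : IsCoprime α c := by
        rw [cop_iff hc]
        intro P hP hα
        exact h ⟨P, hP, hα⟩
      have h3 : et (1 : MulChar (eis ⧸ (sp c : Ideal eis)) ℂ) α = 1 := by
        unfold et
        exact MulChar.one_apply ((unit_iff α).2 h2)
      rw [h3, map_one, mul_one]
  rw [e1] at l1
  rw [tendsto_nhds_unique hl l1, hwv, c3]
  unfold kap
  ring

/-- the formula for the other characters -/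
lemma form_ne (hC : Cur L Ω) (hc : c ≠ 0) (hc3 : IsCoprime c 3)
    [Fintype (eis ⧸ (sp c : Ideal eis))] {η : MulChar (eis ⧸ (sp c : Ideal eis)) ℂ}
    (h1 : η ≠ 1) {l : ℂ} (hl : Tendsto (SS (ec η)) (𝓝[>] 0) (𝓝 l)) :
    l = kap L Ω * Ω * ((ee psi c * (starRingEnd ℂ) (et η 3)) / (3 * c) *
      ∑ x : eis ⧸ (sp c : Ideal eis), (starRingEnd ℂ) (η x) *
        (-3 / (1 + ℘[L] (Ω * x.out / c) ^ 3))) := by
  classical
  have : Finite (eis ⧸ (sp 3 : Ideal eis)) := finite_q three_ne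
  have : Fintype (eis ⧸ (sp 3 : Ideal eis)) := Fintype.ofFinite _
  have hL := hC.lat
  have hcu : ¬ IsUnit c := by
    intro hu
    apply h1
    have h2 : (sp c : Ideal eis) = ⊤ := Ideal.span_singleton_eq_top.2 hu
    have h3 : Subsingleton (eis ⧸ (sp c : Ideal eis)) := Ideal.Quotient.subsingleton_iff.2 h2
    ext x
    have h4 : (x : eis ⧸ (sp c : Ideal eis)) = 1 := Subsingleton.elim _ _
    rw [h4]
    simp
  have hnt : Nontrivial (eis ⧸ (sp c : Ideal eis)) := by
    rw [Ideal.Quotient.nontrivial_iff]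
    intro h
    exact hcu (Ideal.span_singleton_eq_top.1 h)
  have hzero : ∀ η' : MulChar (eis ⧸ (sp c : Ideal eis)) ℂ, η' 0 = 0 := fun η' =>
    η'.map_nonunit not_isUnit_zero
  have eout : ∀ (η' : MulChar (eis ⧸ (sp c : Ideal eis)) ℂ) (x : eis ⧸ (sp c : Ideal eis)),
      et η' x.out = η' x := by
    intro η' x
    unfold et
    rw [Ideal.Quotient.mk_out]
  obtain ⟨w, hw⟩ := WW_lim hL
  have c3 : ((3 : eis) : ℂ) = 3 := rfl
  have h2 : Xg c (fun α => (starRingEnd ℂ) (et η α)) := by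
    refine ⟨fun x y h => ?_, fun x y => ?_, fun x => ?_⟩
    · rw [et_per h]
    · rw [et_mul, map_mul]
    · rw [RCLike.norm_conj]
      exact et_bd hc x
  have h3 := lim_gen hL hc hc3.symm h2 (fun x hx => by
    unfold et
    rw [Ideal.Quotient.eq_zero_iff_mem.2 hx, hzero, map_zero]) hw
  have h4 := tendsto_nhds_unique hl h3
  have hs0 : ∑ x : eis ⧸ (sp c : Ideal eis), (starRingEnd ℂ) (et η x.out) = 0 := by
    simp only [eout]
    rw [← map_sum, MulChar.sum_eq_zero_of_ne_one h1, map_zero]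
  rw [h4, hs0, zero_mul, add_zero, c3]
  have h5 : ∀ x : eis ⧸ (sp c : Ideal eis), (starRingEnd ℂ) (et η x.out) *
      HH L Ω 3 (ee psi) (Ω * x.out / c) = kap L Ω * ((starRingEnd ℂ) (η x) *
        (-3 / (1 + ℘[L] (Ω * x.out / c) ^ 3))) := by
    intro x
    rw [eout]
    by_cases hx : x = 0
    · rw [hx, hzero, map_zero]
      ring
    · rw [hC.hh (one_add_ne hC hc hc3 (out_notMem hx))]
      unfold kap
      ring
  rw [Finset.sum_congr rfl fun x _ => h5 x, ← Finset.mul_sum]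
  ring

end form

/-- **the action on the values** -/
theorem theta_gal (hC : Cur L Ω) {c : eis} {m : ℕ} (hcm : c = (m : eis)) (hm : m ≠ 0)
    (hc3 : IsCoprime c 3) (hσ : σ om = om) :
    ∃ u : (eis ⧸ (sp c : Ideal eis))ˣ, ∀ η η' : MulChar (eis ⧸ (sp c : Ideal eis)) ℂ,
      (∀ x, η' x = σ (η x)) → ∀ l l' : ℂ,
      Tendsto (SS (ec η)) (𝓝[>] 0) (𝓝 (kap L Ω * Ω * l)) →
      Tendsto (SS (ec η')) (𝓝[>] 0) (𝓝 (kap L Ω * Ω * l')) →
      σ l = η' (u : eis ⧸ (sp c : Ideal eis)) * l' := by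
  classical
  have hc : c ≠ 0 := by
    rw [hcm]
    exact_mod_cast hm
  have hkΩ : kap L Ω * Ω ≠ 0 := mul_ne_zero (kap_ne hC) hC.lat.ne
  have hfin : Finite (eis ⧸ (sp c : Ideal eis)) := finite_q hc
  have : Fintype (eis ⧸ (sp c : Ideal eis)) := Fintype.ofFinite _
  obtain ⟨u, v, huv, hR⟩ := exists_unit hC.lat σ (sig_g2 hC) (sig_g3 hC) (rl_lin hC hσ) m
    (Nat.pos_of_ne_zero hm) (by rw [← hcm]; exact hfin)
  rw [← hcm] at huv
  have hu1 : Ideal.Quotient.mk (sp c : Ideal eis) u * Ideal.Quotient.mk _ v = 1 := by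
    rw [← map_mul, ← map_one (Ideal.Quotient.mk (sp c : Ideal eis)),
      Ideal.Quotient.mk_eq_mk_iff_sub_mem]
    exact huv
  let U : (eis ⧸ (sp c : Ideal eis))ˣ := ⟨Ideal.Quotient.mk _ u, Ideal.Quotient.mk _ v, hu1, by
    rw [mul_comm]; exact hu1⟩
  have hUv : (U : eis ⧸ (sp c : Ideal eis)) = Ideal.Quotient.mk _ u := rfl
  refine ⟨U, fun η η' h l l' hl hl' => ?_⟩
  have hcc : (c : ℂ) = (m : ℂ) := by
    rw [hcm]
    push_cast
    rfl
  have hee : ∀ α : eis, σ (ee psi α) = ee psi α := by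
    intro α
    by_cases h3 : IsCoprime α 3
    · obtain ⟨w, hw, h4⟩ := cop_three h3
      rw [eo.per _ _ h4, ee_u hw]
      exact sig_eis hσ w
    · have : ee psi α = 0 := by
        unfold ee
        rw [map_eq_zero]
        unfold fp
        have h5 : psi (sp α) = 0 := by
          rw [psi_zero_iff]
          rwa [Ideal.isCoprime_span_singleton_iff]
        rw [h5]
        simp
      rw [this, map_zero]
  by_cases h1 : η = 1
  · subst h1
    have h2 : η' = 1 := by
      ext x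
      rw [h, MulChar.one_apply_coe, map_one]
    subst h2
    have e1 := form_one hC hc hl
    have e2 := form_one hC hc hl'
    have e3 := mul_left_cancel₀ hkΩ e1
    have e4 := mul_left_cancel₀ hkΩ e2
    rw [MulChar.one_apply_coe, one_mul, e3, e4, map_mul, map_div₀, map_ofNat, map_ofNat, map_prod]
    congr 1
    refine Finset.prod_congr rfl fun P _ => ?_
    rw [map_sub, map_one, map_div₀, hee, sig_eis hσ]
  · have h2 : η' ≠ 1 := by
      rintro rfl
      apply h1
      ext x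
      have h3 := h (x : eis ⧸ (sp c : Ideal eis))
      rw [MulChar.one_apply_coe] at h3
      rw [MulChar.one_apply_coe]
      exact σ.injective (by rw [← h3, map_one])
    have e1 := form_ne hC hc hc3 h1 hl
    have e2 := form_ne hC hc hc3 h2 hl'
    have e3 := mul_left_cancel₀ hkΩ e1
    have e4 := mul_left_cancel₀ hkΩ e2
    rw [e3, e4, map_mul, map_div₀, map_mul, map_mul, hee, sig_eis hσ, map_ofNat, map_sum]
    have e5 : σ ((starRingEnd ℂ) (et η 3)) = (starRingEnd ℂ) (et η' 3) := sig_conj h _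
    rw [e5]
    have hsum : ∑ x : eis ⧸ (sp c : Ideal eis), σ ((starRingEnd ℂ) (η x) *
        (-3 / (1 + ℘[L] (Ω * x.out / c) ^ 3))) = η' (U : eis ⧸ (sp c : Ideal eis)) *
        ∑ x : eis ⧸ (sp c : Ideal eis), (starRingEnd ℂ) (η' x) *
        (-3 / (1 + ℘[L] (Ω * x.out / c) ^ 3)) := by
      rw [Finset.mul_sum]
      refine Fintype.sum_equiv (Units.mulLeft U) _ _ fun x => ?_
      have hval : (Units.mulLeft U) x = (U : eis ⧸ (sp c : Ideal eis)) * x := rfl
      rw [hval]
      by_cases hx : IsUnit x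
      · have hx0 : x ≠ 0 := by
          rintro rfl
          have hs : Subsingleton (eis ⧸ (sp c : Ideal eis)) := isUnit_zero_iff.1 hx |> fun h =>
            subsingleton_of_zero_eq_one h
          apply h1
          ext y
          have : (y : eis ⧸ (sp c : Ideal eis)) = 1 := Subsingleton.elim _ _
          rw [this]
          simp
        have hvals := (hR x.out).vals (by
          rw [← hcc]
          rw [hC.div_iff hc]
          exact out_notMem hx0)
        rw [← hcc] at hvals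
        have hper : ℘[L] (Ω * ((U : eis ⧸ (sp c : Ideal eis)) * x).out / c) =
            ℘[L] (Ω * (u * x.out : eis) / c) := by
          apply wp_per
          have h6 : ((U : eis ⧸ (sp c : Ideal eis)) * x).out - u * x.out ∈ (sp c : Ideal eis) := by
            rw [← Ideal.Quotient.mk_eq_mk_iff_sub_mem, Ideal.Quotient.mk_out, map_mul,
              Ideal.Quotient.mk_out, hUv]
          rw [← hC.div_iff hc] at h6
          convert h6 using 1
          push_cast
          ring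
        rw [map_mul, sig_conj h, map_div₀, map_neg, map_ofNat, map_add, map_one, map_pow,
          hvals.1, ← hper, map_mul, map_mul, ← mul_assoc, ← mul_assoc,
          nrm_mc η' U.isUnit, one_mul]
      · rw [MulChar.map_nonunit η hx, map_zero, zero_mul, map_zero]
        have h7 : ¬ IsUnit ((U : eis ⧸ (sp c : Ideal eis)) * x) := by
          rw [IsUnit.mul_iff]
          exact fun h => hx h.2
        rw [MulChar.map_nonunit η' h7, map_zero, zero_mul, mul_zero]
    rw [hsum]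
    ring

end Pool.Agent.N883.Q
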